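import Pool.Agent.Helper57.SOB.Abs

/-!
# SOB-02 Composition with functions of class `C^1` with bounded derivative

TO PROVE (in place).  Let `U ∈ HJ`, `V n → U` jets of `(v n, g n)` (`mem_HJ_iff`).  Passing to a subsequence, `v n x → U.fst x` for almost every `x`
(convergence in `L²` implies convergence in measure: `tendstoInMeasure_of_tendsto_Lp`, `TendstoInMeasure.exists_seq_tendsto_ae`).
`k` is Lipschitz with constant `C`, so `k ∘ v n → k ∘ U.fst` in `L²` (`‖k a - k b‖ ≤ C |a - b|`; `k ∘ U.fst ∈ L²` since the measure is finite).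
`‖k'(v n) g n - k'(u) g‖ ≤ C ‖g n - g‖ + |k'(v n) - k'(u)| ‖g‖`; the first term tends to `0` in `L²`, the second by dominated
convergence (`≤ 2 C ‖g‖`, pointwise to `0` almost everywhere by continuity of `k'`).
Let `W n` be the jets of `(k ∘ v n, k'(v n) g n)` (`JClass.comp`, `exists_jet`), they lie in `HJ` and converge to the element `V` with
components `k ∘ U.fst`, `k'(U.fst) U.snd` (both are in `L²`; build it with `MemLp.toLp`); `HJ` is closed.
-/

set_option autoImplicit false

namespace SOB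

open MeasureTheory Filter Topology
open Pool.Agent.Helper53.CL

variable {Ω : Type*} [MeasurableSpace Ω] {A : Measure Ω} {J : (Ω → ℝ) → (Ω → ℂ) → Prop}

private theorem lp_sq {E : Type*} [NormedAddCommGroup E] [InnerProductSpace ℝ E] (f : Lp E 2 A) :
    ‖f‖ ^ 2 = ∫ x, ‖f x‖ ^ 2 ∂A := by
  rw [← real_inner_self_eq_norm_sq, L2.inner_def]
  simp

theorem compStable [IsFiniteMeasure A] (h : JClass A J) : CompStable (HJ A J) := by
  rintro k hk ⟨C, hC⟩ U hU
  obtain ⟨V, v, g, hV, hlim⟩ := (mem_HJ_iff h).1 hU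
  have hC0 : 0 ≤ C := (abs_nonneg _).trans (hC 0)
  have hkd : Differentiable ℝ k := hk.differentiable (by norm_num)
  have hlip : LipschitzWith ⟨C, hC0⟩ k := by
    refine lipschitzWith_of_nnnorm_deriv_le hkd fun x => ?_
    exact_mod_cast (hC x : ‖deriv k x‖ ≤ C)
  have hlip' : ∀ a b, ‖k a - k b‖ ≤ C * ‖a - b‖ := fun a b => by
    have := hlip.dist_le_mul a b
    rwa [dist_eq_norm, dist_eq_norm] at this
  have hdc : Continuous (deriv k) := hk.continuous_deriv (by norm_num)
  have hfst : Tendsto (fun n => (V n).fst) atTop (𝓝 U.fst) :=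
    ((WithLp.continuous_fst 2 (Lp ℝ 2 A) (Lp ℂ 2 A)).tendsto U).comp hlim
  have hsnd : Tendsto (fun n => (V n).snd) atTop (𝓝 U.snd) :=
    ((WithLp.continuous_snd 2 (Lp ℝ 2 A) (Lp ℂ 2 A)).tendsto U).comp hlim
  obtain ⟨σ, hσ, hae⟩ := (tendstoInMeasure_of_tendsto_Lp hfst).exists_seq_tendsto_ae
  -- the target
  have hm1 : MemLp (fun x => k (U.fst x)) 2 A := by
    have h1 : MemLp (fun x => k (U.fst x) - k 0) 2 A := by
      refine (Lp.memLp U.fst).of_le_mul (c := C) ?_ (Eventually.of_forall fun x => ?_)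
      · exact (hk.continuous.comp_aestronglyMeasurable (Lp.aestronglyMeasurable _)).sub
          aestronglyMeasurable_const
      · have := hlip' (U.fst x) 0
        rwa [sub_zero] at this
    have h2 := h1.add (memLp_const (k 0))
    refine h2.congr_norm ?_ ?_
    · exact hk.continuous.comp_aestronglyMeasurable (Lp.aestronglyMeasurable _)
    · refine Eventually.of_forall fun x => ?_
      simp
  have hdm : AEStronglyMeasurable (fun x => ((deriv k (U.fst x) : ℝ) : ℂ)) A :=
    (Complex.continuous_ofReal.comp hdc).comp_aestronglyMeasurable (Lp.aestronglyMeasurable _)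
  have hm2 : MemLp (fun x => ((deriv k (U.fst x) : ℝ) : ℂ) * U.snd x) 2 A := by
    refine (Lp.memLp U.snd).of_le_mul (c := C) (hdm.mul (Lp.aestronglyMeasurable _))
      (Eventually.of_forall fun x => ?_)
    rw [norm_mul, Complex.norm_real]
    exact mul_le_mul_of_nonneg_right (hC _) (norm_nonneg _)
  set W : JetSp A := WithLp.toLp 2 (hm1.toLp _, hm2.toLp _) with hW
  have hWj : IsJet W (fun x => k (U.fst x)) (fun x => ((deriv k (U.fst x) : ℝ) : ℂ) * U.snd x) :=
    ⟨hm1.coeFn_toLp, hm2.coeFn_toLp⟩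
  choose X hX hXmem using fun n => exists_jet h (h.comp k hk _ _ (hV n).1)
  refine ⟨W, ?_, hWj⟩
  -- the second error term
  set F : ℕ → Ω → ℂ := fun n x => (((deriv k ((V (σ n)).fst x) - deriv k (U.fst x) : ℝ)) : ℂ) * U.snd x with hF
  have hFint : Tendsto (fun n => ∫ x, ‖F n x‖ ^ 2 ∂A) atTop (𝓝 0) := by
    have h0 : (0 : ℝ) = ∫ x, (0 : ℝ) ∂A := by simp
    rw [h0]
    have hint : Integrable (fun x => ‖U.snd x‖ ^ 2) A := (Lp.memLp U.snd).integrable_norm_pow (by norm_num)
    refine tendsto_integral_of_dominated_convergence (fun x => (2 * C) ^ 2 * ‖U.snd x‖ ^ 2) ?_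
      (hint.const_mul _) ?_ ?_
    · intro n
      refine (AEStronglyMeasurable.norm ?_).pow 2
      refine AEStronglyMeasurable.mul ?_ (Lp.aestronglyMeasurable _)
      refine Complex.continuous_ofReal.comp_aestronglyMeasurable ?_
      exact (hdc.comp_aestronglyMeasurable (Lp.aestronglyMeasurable _)).sub
        (hdc.comp_aestronglyMeasurable (Lp.aestronglyMeasurable _))
    · intro n
      refine Eventually.of_forall fun x => ?_
      rw [Real.norm_eq_abs, abs_of_nonneg (by positivity), hF]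
      simp only [norm_mul, Complex.norm_real, mul_pow]
      refine mul_le_mul_of_nonneg_right ?_ (by positivity)
      rw [← mul_pow]
      refine pow_le_pow_left₀ (norm_nonneg _) ?_ 2
      refine (norm_sub_le _ _).trans ?_
      have h1 := hC ((V (σ n)).fst x)
      have h2 := hC (U.fst x)
      rw [Real.norm_eq_abs, Real.norm_eq_abs]
      linarith
    · filter_upwards [hae] with x hx
      have h1 : Tendsto (fun n => deriv k ((V (σ n)).fst x) - deriv k (U.fst x)) atTop (𝓝 0) := by
        have := ((hdc.tendsto (U.fst x)).comp hx).sub_const (deriv k (U.fst x))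
        simpa using this
      have h2 : Tendsto (fun n => F n x) atTop (𝓝 0) := by
        have h3 := ((Complex.continuous_ofReal.tendsto 0).comp h1).mul_const (U.snd x)
        simpa [hF] using h3
      have h4 := (h2.norm).pow 2
      simpa using h4
  have hFm : ∀ n, MemLp (F n) 2 A := by
    intro n
    refine (Lp.memLp U.snd).of_le_mul (c := 2 * C) ?_ (Eventually.of_forall fun x => ?_)
    · refine AEStronglyMeasurable.mul ?_ (Lp.aestronglyMeasurable _)
      refine Complex.continuous_ofReal.comp_aestronglyMeasurable ?_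
      exact (hdc.comp_aestronglyMeasurable (Lp.aestronglyMeasurable _)).sub
        (hdc.comp_aestronglyMeasurable (Lp.aestronglyMeasurable _))
    · rw [hF]
      simp only [norm_mul, Complex.norm_real]
      refine mul_le_mul_of_nonneg_right ((norm_sub_le _ _).trans ?_) (norm_nonneg _)
      have h1 := hC ((V (σ n)).fst x)
      have h2 := hC (U.fst x)
      rw [Real.norm_eq_abs, Real.norm_eq_abs]
      linarith
  have hFi : ∀ n, Integrable (fun x => 2 * ‖F n x‖ ^ 2) A := fun n =>
    ((hFm n).integrable_norm_pow (by norm_num)).const_mul 2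
  have hDi : ∀ n, Integrable (fun x => 2 * C ^ 2 * ‖((V (σ n)).snd - U.snd : Lp ℂ 2 A) x‖ ^ 2) A := fun n =>
    ((Lp.memLp _).integrable_norm_pow (by norm_num)).const_mul _
  have hbound : ∀ n, ‖X (σ n) - W‖ ^ 2 ≤ C ^ 2 * ‖(V (σ n)).fst - U.fst‖ ^ 2 +
      (2 * C ^ 2 * ‖(V (σ n)).snd - U.snd‖ ^ 2 + 2 * ∫ x, ‖F n x‖ ^ 2 ∂A) := by
    intro n
    rw [WithLp.prod_norm_sq_eq_of_L2, WithLp.sub_fst, WithLp.sub_snd]
    refine add_le_add ?_ ?_
    · rw [← mul_pow]
      refine pow_le_pow_left₀ (norm_nonneg _) ?_ 2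
      refine Lp.norm_le_mul_norm_of_ae_le_mul ?_
      filter_upwards [Lp.coeFn_sub (X (σ n)).fst W.fst, Lp.coeFn_sub (V (σ n)).fst U.fst, (hX (σ n)).1, hWj.1,
        (hV (σ n)).2.1] with x h1 h2 h3 h4 h5
      rw [h1, h2, Pi.sub_apply, Pi.sub_apply, h3, h4, h5]
      exact hlip' _ _
    · rw [lp_sq, lp_sq, ← integral_const_mul, ← integral_const_mul, ← integral_add (hDi n) (hFi n)]
      refine integral_mono_ae ((Lp.memLp _).integrable_norm_pow (by norm_num)) ((hDi n).add (hFi n)) ?_
      filter_upwards [Lp.coeFn_sub (X (σ n)).snd W.snd, Lp.coeFn_sub (V (σ n)).snd U.snd,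
        (hX (σ n)).2, hWj.2, (hV (σ n)).2.1, (hV (σ n)).2.2] with x h1 h2 h3 h4 h5 h6
      rw [h1, h2, Pi.sub_apply, Pi.sub_apply, h3, h4, h6]
      have e1 : ((deriv k (v (σ n) x) : ℝ) : ℂ) * g (σ n) x - ((deriv k (U.fst x) : ℝ) : ℂ) * U.snd x =
          ((deriv k (v (σ n) x) : ℝ) : ℂ) * (g (σ n) x - U.snd x) + F n x := by
        rw [hF]
        simp only [h5]
        push_cast
        ring
      rw [e1]
      have e2 : ‖((deriv k (v (σ n) x) : ℝ) : ℂ) * (g (σ n) x - U.snd x) + F n x‖ ≤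
          C * ‖g (σ n) x - U.snd x‖ + ‖F n x‖ := by
        refine (norm_add_le _ _).trans (add_le_add ?_ le_rfl)
        rw [norm_mul, Complex.norm_real]
        exact mul_le_mul_of_nonneg_right (hC _) (norm_nonneg _)
      have e3 := pow_le_pow_left₀ (norm_nonneg _) e2 2
      nlinarith [sq_nonneg (C * ‖g (σ n) x - U.snd x‖ - ‖F n x‖)]
  have hlim2 : Tendsto (fun n => X (σ n)) atTop (𝓝 W) := by
    rw [tendsto_iff_norm_sub_tendsto_zero]
    have h1 : Tendsto (fun n => C ^ 2 * ‖(V (σ n)).fst - U.fst‖ ^ 2 +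
      (2 * C ^ 2 * ‖(V (σ n)).snd - U.snd‖ ^ 2 + 2 * ∫ x, ‖F n x‖ ^ 2 ∂A)) atTop (𝓝 0) := by
      have h2 := ((tendsto_iff_norm_sub_tendsto_zero.1 (hfst.comp hσ.tendsto_atTop)).pow 2).const_mul (C ^ 2)
      have h3 := ((tendsto_iff_norm_sub_tendsto_zero.1 (hsnd.comp hσ.tendsto_atTop)).pow 2).const_mul
        (2 * C ^ 2)
      have h4 := h2.add (h3.add (hFint.const_mul 2))
      simpa using h4
    have h5 : Tendsto (fun n => ‖X (σ n) - W‖ ^ 2) atTop (𝓝 0) :=
      squeeze_zero (fun n => by positivity) hbound h1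
    have h6 := h5.sqrt
    simpa [Real.sqrt_sq] using h6
  exact isClosed_HJ.mem_of_tendsto hlim2 (Eventually.of_forall fun n => hXmem _)

end SOB
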