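import Pool.Agent.Helper57.SOB.Abs

/-!
# SOB-03 Compactness from approximation by operators of finite rank

TO PROVE (in place).  By density (`mem_HJ_iff`) and continuity, `‖U.fst - P U.fst‖ ≤ ε ‖U‖` for all `U ∈ HJ A J`.  Let
`p : HJ A J →L[ℝ] Lp ℝ 2 A`, `p U = U.fst` (`WithLp.fstL` or `WithLp.prodContinuousLinearEquiv`, composed with `Submodule.subtypeL`).
For `ε = 1/(n+1)` the operators `(P n) ∘L p` are compact (`IsCompactOperator.comp_clm`) and tend to `p` in norm, so `p` is compact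
(`isCompactOperator_of_tendsto`), and `IsCompactOperator.isCompact_closure_image_closedBall` gives the claim (the set is the
image of the closed ball of radius `C`).
-/

set_option autoImplicit false

namespace SOB

open MeasureTheory Filter Topology
open Pool.Agent.Helper53.CL

variable {Ω : Type*} [MeasurableSpace Ω] {A : Measure Ω} {J : (Ω → ℝ) → (Ω → ℂ) → Prop}

theorem rellich_of (h : JClass A J)
    (hP : ∀ ε > 0, ∃ P : Lp ℝ 2 A →L[ℝ] Lp ℝ 2 A, IsCompactOperator P ∧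
      ∀ (U : JetSp A) (v : Ω → ℝ) (g : Ω → ℂ), J v g → IsJet U v g → ‖U.fst - P U.fst‖ ≤ ε * ‖U‖) (C : ℝ) :
    IsCompact (closure {u : Lp ℝ 2 A | ∃ U ∈ HJ A J, ‖U‖ ≤ C ∧ U.fst = u}) := by
  let p : HJ A J →L[ℝ] Lp ℝ 2 A := (WithLp.fstL 2 ℝ (Lp ℝ 2 A) (Lp ℂ 2 A)).comp (HJ A J).subtypeL
  have happ : ∀ U : HJ A J, p U = (U : JetSp A).fst := fun U => rfl
  have hdens : ∀ ε > 0, ∃ P : Lp ℝ 2 A →L[ℝ] Lp ℝ 2 A, IsCompactOperator P ∧
      ∀ U ∈ HJ A J, ‖U.fst - P U.fst‖ ≤ ε * ‖U‖ := by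
    intro ε hε
    obtain ⟨P, hPc, hPb⟩ := hP ε hε
    refine ⟨P, hPc, ?_⟩
    intro U hU
    obtain ⟨V, v, g, hV, hlim⟩ := (mem_HJ_iff h).1 hU
    have hfst : Continuous fun W : JetSp A => W.fst :=
      (WithLp.fstL 2 ℝ (Lp ℝ 2 A) (Lp ℂ 2 A)).continuous
    have h1 : Tendsto (fun n => ‖(V n).fst - P (V n).fst‖) atTop (𝓝 ‖U.fst - P U.fst‖) := by
      have hc : Continuous fun W : JetSp A => ‖W.fst - P W.fst‖ :=
        (hfst.sub (P.continuous.comp hfst)).norm
      exact (hc.tendsto U).comp hlim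
    have h2 : Tendsto (fun n => ε * ‖V n‖) atTop (𝓝 (ε * ‖U‖)) :=
      (hlim.norm).const_mul ε
    exact le_of_tendsto_of_tendsto' h1 h2 fun n => hPb (V n) (v n) (g n) (hV n).1 (hV n).2
  have hpos : ∀ n : ℕ, 0 < 1 / ((n : ℝ) + 1) := fun n => by positivity
  choose P hPc hPb using fun n : ℕ => hdens (1 / ((n : ℝ) + 1)) (hpos n)
  have hlim : Tendsto (fun n => (P n).comp p) atTop (𝓝 p) := by
    refine (tendsto_iff_norm_sub_tendsto_zero (E := HJ A J →L[ℝ] Lp ℝ 2 A)).2 ?_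
    refine squeeze_zero (fun n => ContinuousLinearMap.opNorm_nonneg _) (fun n => ?_) tendsto_one_div_add_atTop_nhds_zero_nat
    refine ContinuousLinearMap.opNorm_le_bound _ (hpos n).le fun U => ?_
    have h3 := hPb n (U : JetSp A) U.2
    have h4 : ((P n).comp p - p) U = -((U : JetSp A).fst - P n (U : JetSp A).fst) := by
      rw [ContinuousLinearMap.sub_apply, ContinuousLinearMap.comp_apply, happ, neg_sub]
    rw [h4, norm_neg]
    exact h3
  have hcomp : IsCompactOperator p := by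
    refine isCompactOperator_of_tendsto hlim (Filter.Eventually.of_forall fun n => ?_)
    exact (hPc n).comp_clm p
  have hK := hcomp.isCompact_closure_image_closedBall C
  have hset : {u : Lp ℝ 2 A | ∃ U ∈ HJ A J, ‖U‖ ≤ C ∧ U.fst = u} = p '' Metric.closedBall 0 C := by
    ext u
    constructor
    · rintro ⟨U, hU, hn, rfl⟩
      refine ⟨⟨U, hU⟩, ?_, rfl⟩
      rw [mem_closedBall_zero_iff]
      exact hn
    · rintro ⟨U, hU, rfl⟩
      rw [mem_closedBall_zero_iff] at hU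
      exact ⟨U, U.2, hU, rfl⟩
  rw [hset]
  exact hK

end SOB
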