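import Pool.Agent.Helper57.SOB.Defs

/-!
# SOB-01 Closures of classes of jets

TO PROVE (in place).

* `exists_jet`: `U = WithLp.toLp 2 (toLp v, toLp g)` (`MemLp.toLp`, `MemLp.coeFn_toLp`).
* `norm_sq`: `WithLp.prod_norm_sq_eq_of_L2` and the `L²` norms as integrals (`‖u‖² = inner u u = ∫ ‖u x‖²`, `L2.inner_def`).
* `mem_HJ_iff`: the set `{U | ∃ v g, J v g ∧ IsJet U v g}` is the carrier of a submodule (closed under `0` (`smul` with `c = 0`), sums and
  multiples), so the span is this set; then `mem_closure_iff_seq_limit`.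
* `one_mem`: `JClass.one`.
-/

set_option autoImplicit false

namespace SOB

open MeasureTheory Filter Topology
open Pool.Agent.Helper53.CL

variable {Ω : Type*} [MeasurableSpace Ω] {A : Measure Ω} {J : (Ω → ℝ) → (Ω → ℂ) → Prop}

private theorem jet_mem {U : JetSp A} {v : Ω → ℝ} {g : Ω → ℂ} (hv : J v g) (hU : IsJet U v g) :
    U ∈ HJ A J :=
  Submodule.le_topologicalClosure _ (Submodule.subset_span ⟨v, g, hv, hU⟩)

theorem exists_jet (h : JClass A J) {v : Ω → ℝ} {g : Ω → ℂ} (hv : J v g) :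
    ∃ U : JetSp A, IsJet U v g ∧ U ∈ HJ A J := by
  obtain ⟨h1, h2⟩ := h.memLp v g hv
  have h3 : IsJet (WithLp.toLp 2 (h1.toLp v, h2.toLp g) : JetSp A) v g :=
    ⟨h1.coeFn_toLp, h2.coeFn_toLp⟩
  exact ⟨_, h3, jet_mem hv h3⟩

private theorem inner_jet_aux {U V : JetSp A} {v w : Ω → ℝ} {g k : Ω → ℂ} (hU : IsJet U v g)
    (hV : IsJet V w k) :
    inner ℝ U V = (∫ x, v x * w x ∂A) + ∫ x, inner ℝ (g x) (k x) ∂A := by
  rw [WithLp.prod_inner_apply]
  congr 1
  · refine (L2.inner_def (𝕜 := ℝ) U.fst V.fst).trans (integral_congr_ae ?_)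
    filter_upwards [hU.1, hV.1] with x h1 h2
    rw [h1, h2]
    simp [mul_comm]
  · refine (L2.inner_def (𝕜 := ℝ) U.snd V.snd).trans (integral_congr_ae ?_)
    filter_upwards [hU.2, hV.2] with x h1 h2
    rw [h1, h2]

theorem norm_sq {U : JetSp A} {v : Ω → ℝ} {g : Ω → ℂ} (hU : IsJet U v g) :
    ‖U‖ ^ 2 = (∫ x, v x ^ 2 ∂A) + ∫ x, ‖g x‖ ^ 2 ∂A := by
  rw [← real_inner_self_eq_norm_sq, inner_jet_aux hU hU]
  congr 1
  · refine integral_congr_ae (Eventually.of_forall fun x => ?_)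
    show v x * v x = v x ^ 2
    ring
  · refine integral_congr_ae (Eventually.of_forall fun x => ?_)
    exact real_inner_self_eq_norm_sq (g x)

theorem inner_jet {U V : JetSp A} {v w : Ω → ℝ} {g k : Ω → ℂ} (hU : IsJet U v g) (hV : IsJet V w k) :
    inner ℝ U V = (∫ x, v x * w x ∂A) + ∫ x, inner ℝ (g x) (k x) ∂A :=
  inner_jet_aux hU hV

/-- the jets of a class form a submodule -/
private def jetMod (h : JClass A J) : Submodule ℝ (JetSp A) where
  carrier := {U | ∃ v g, J v g ∧ IsJet U v g}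
  add_mem' := by
    rintro U V ⟨v, g, hv, hU⟩ ⟨w, k, hw, hV⟩
    refine ⟨v + w, g + k, h.add _ _ _ _ hv hw, ?_, ?_⟩
    · refine (Lp.coeFn_add U.fst V.fst).trans ?_
      filter_upwards [hU.1, hV.1] with x h1 h2
      simp only [Pi.add_apply, h1, h2]
    · refine (Lp.coeFn_add U.snd V.snd).trans ?_
      filter_upwards [hU.2, hV.2] with x h1 h2
      simp only [Pi.add_apply, h1, h2]
  zero_mem' := by
    refine ⟨_, _, h.smul 0 _ _ h.one, ?_, ?_⟩
    · refine (Lp.coeFn_zero ℝ 2 A).trans ?_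
      filter_upwards with x
      simp
    · refine (Lp.coeFn_zero ℂ 2 A).trans ?_
      filter_upwards with x
      simp
  smul_mem' := by
    rintro c U ⟨v, g, hv, hU⟩
    refine ⟨c • v, c • g, h.smul c _ _ hv, ?_, ?_⟩
    · refine (Lp.coeFn_smul c U.fst).trans ?_
      filter_upwards [hU.1] with x h1
      simp only [Pi.smul_apply, h1]
    · refine (Lp.coeFn_smul c U.snd).trans ?_
      filter_upwards [hU.2] with x h1
      simp only [Pi.smul_apply, h1]

theorem mem_HJ_iff (h : JClass A J) {U : JetSp A} :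
    U ∈ HJ A J ↔ ∃ (V : ℕ → JetSp A) (v : ℕ → Ω → ℝ) (g : ℕ → Ω → ℂ),
      (∀ n, J (v n) (g n) ∧ IsJet (V n) (v n) (g n)) ∧ Tendsto V atTop (𝓝 U) := by
  have h1 : HJ A J = (jetMod h).topologicalClosure := by
    unfold HJ
    congr 1
    exact Submodule.span_eq (jetMod h)
  rw [h1]
  have h2 : U ∈ (jetMod h).topologicalClosure ↔ U ∈ closure ((jetMod h : Submodule ℝ (JetSp A)) :
      Set (JetSp A)) := Iff.rfl
  rw [h2, mem_closure_iff_seq_limit]
  constructor
  · rintro ⟨V, hV, hl⟩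
    choose v g hv using fun n => hV n
    exact ⟨V, v, g, hv, hl⟩
  · rintro ⟨V, v, g, hv, hl⟩
    exact ⟨V, fun n => ⟨v n, g n, hv n⟩, hl⟩

theorem isClosed_HJ : IsClosed (HJ A J : Set (JetSp A)) :=
  Submodule.isClosed_topologicalClosure _

theorem one_mem (h : JClass A J) : ∀ U : JetSp A, IsJet U (fun _ => 1) (fun _ => 0) → U ∈ HJ A J :=
  fun _ hU => jet_mem h.one hU

end SOB
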