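import Pool.Agent.Helper57.SOB.Defs

/-!
# SOB-06 Operators of finite rank given by step functions

TO PROVE (in place).

* `exists_op`: `P = ∑ i ∈ I, (innerSL ℝ (a i)).smulRight (indicatorConstLp 2 (hc i) _ 1)`; each summand is compact (its range is one
  dimensional: `isCompactOperator_of_locallyCompactSpace_rng` for the functional composed with a continuous linear map from `ℝ`, as in
  `Pool.Agent.Helper61.KS.Eop_compact`), finite sums are compact (`IsCompactOperator.add`, induction).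
* `norm_sub_sq`: `‖u - P u‖² = ∫ (u - P u)²` and the space is, up to a null set, the disjoint union of the `c i`; on `c i` the
  function `P u` is the constant `inner (a i) u`.
-/

set_option autoImplicit false

namespace SOB

open MeasureTheory Filter Topology

variable {Ω : Type*} [MeasurableSpace Ω] {A : Measure Ω}

theorem exists_op [IsFiniteMeasure A] {ι : Type*} (I : Finset ι) (c : ι → Set Ω)
    (hc : ∀ i, MeasurableSet (c i)) (a : ι → Lp ℝ 2 A) :
    ∃ P : Lp ℝ 2 A →L[ℝ] Lp ℝ 2 A, IsCompactOperator P ∧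
      ∀ u : Lp ℝ 2 A, P u =ᵐ[A] fun x => ∑ i ∈ I, (c i).indicator (fun _ => inner ℝ (a i) u) x := by
  classical
  set χ : ι → Lp ℝ 2 A := fun i => indicatorConstLp 2 (hc i) (measure_ne_top _ _) (1 : ℝ) with hχ
  refine ⟨∑ i ∈ I, (innerSL ℝ (a i)).smulRight (χ i), ?_, fun u => ?_⟩
  · induction I using Finset.induction_on with
    | empty => simp only [Finset.sum_empty]; exact isCompactOperator_zero
    | insert j s hj ih =>
      rw [Finset.sum_insert hj]
      refine IsCompactOperator.add ?_ ih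
      have h1 : IsCompactOperator (innerSL ℝ (a j)) :=
        isCompactOperator_of_locallyCompactSpace_dom _
      have h2 := h1.clm_comp (ContinuousLinearMap.toSpanSingleton ℝ (χ j))
      exact h2
  · have e1 : (∑ i ∈ I, (innerSL ℝ (a i)).smulRight (χ i)) u = ∑ i ∈ I, (inner ℝ (a i) u) • χ i := by
      rw [_root_.sum_apply]
      rfl
    rw [e1]
    have h1 := Lp.coeFn_finsetSum (μ := A) (p := 2) I (fun i => (inner ℝ (a i) u) • χ i)
    have h2 : ∀ᵐ z ∂A, ∀ i ∈ I, ((inner ℝ (a i) u) • χ i : Lp ℝ 2 A) z =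
        (c i).indicator (fun _ => inner ℝ (a i) u) z := by
      rw [Filter.eventually_all_finset]
      intro i _
      have h3 := Lp.coeFn_smul (inner ℝ (a i) u) (χ i)
      have h4 : χ i =ᵐ[A] (c i).indicator (fun _ => (1 : ℝ)) := indicatorConstLp_coeFn
      filter_upwards [h3, h4] with z h5 h6
      rw [h5, Pi.smul_apply, h6, smul_eq_mul]
      by_cases hz : z ∈ c i
      · rw [Set.indicator_of_mem hz, Set.indicator_of_mem hz, mul_one]
      · rw [Set.indicator_of_notMem hz, Set.indicator_of_notMem hz, mul_zero]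
    filter_upwards [h1, h2] with z h3 h4
    rw [h3, Finset.sum_apply, Finset.sum_congr rfl h4]

theorem norm_sub_sq [IsFiniteMeasure A] {ι : Type*} (I : Finset ι) (c : ι → Set Ω)
    (hc : ∀ i, MeasurableSet (c i)) (hd : (I : Set ι).PairwiseDisjoint c) (hcov : ∀ᵐ x ∂A, ∃ i ∈ I, x ∈ c i)
    (s : ι → ℝ) {u Pu : Lp ℝ 2 A} {v : Ω → ℝ} (hu : u =ᵐ[A] v)
    (hPu : Pu =ᵐ[A] fun x => ∑ i ∈ I, (c i).indicator (fun _ => s i) x) :
    ‖u - Pu‖ ^ 2 = ∑ i ∈ I, ∫ x in c i, (v x - s i) ^ 2 ∂A := by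
  have h1 : ‖u - Pu‖ ^ 2 = ∫ x, ‖(u - Pu : Lp ℝ 2 A) x‖ ^ 2 ∂A := by
    rw [← real_inner_self_eq_norm_sq, L2.inner_def]
    simp
  have hint : Integrable (fun x => ‖(u - Pu : Lp ℝ 2 A) x‖ ^ 2) A :=
    (Lp.memLp _).integrable_norm_pow (by norm_num)
  have hae : ∀ᵐ x ∂A, ‖(u - Pu : Lp ℝ 2 A) x‖ ^ 2 =
      (v x - ∑ i ∈ I, (c i).indicator (fun _ => s i) x) ^ 2 := by
    filter_upwards [Lp.coeFn_sub u Pu, hu, hPu] with x h2 h3 h4
    rw [h2, Pi.sub_apply, h3, h4, Real.norm_eq_abs, sq_abs]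
  rw [h1]
  have h2 : ∫ x, ‖(u - Pu : Lp ℝ 2 A) x‖ ^ 2 ∂A = ∫ x in ⋃ i ∈ I, c i, ‖(u - Pu : Lp ℝ 2 A) x‖ ^ 2 ∂A := by
    have h3 : (⋃ i ∈ I, c i : Set Ω) =ᵐ[A] Set.univ := by
      rw [eventuallyEq_univ]
      filter_upwards [hcov] with x hx
      simpa using hx
    rw [setIntegral_congr_set h3, setIntegral_univ]
  rw [h2, integral_biUnion_finset I (fun i _ => hc i) hd (fun i _ => hint.integrableOn)]
  refine Finset.sum_congr rfl fun i hi => ?_
  refine setIntegral_congr_ae (hc i) ?_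
  filter_upwards [hae] with x hx hxi
  rw [hx, Finset.sum_eq_single i]
  · rw [Set.indicator_of_mem hxi]
  · intro j hj hji
    refine Set.indicator_of_notMem (fun hxj => ?_) _
    exact Set.disjoint_left.1 (hd hj hi hji) hxj hxi
  · intro h
    exact absurd hi h

end SOB
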