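import Pool.Agent.Helper57.SOB.Grid
import Pool.Agent.Helper57.SOB.FinRank
import Pool.Agent.Helper57.SOB.Abs

/-!
# SOB-07 Approximation by operators of finite rank on the unit square

TO PROVE (in place).  Choose `m ≥ 1` with `2 / m² ≤ ε²`.  Index set `gidx m`, `c p = gsq 0 0 1 m p`, `a p` the class of the function
`(m²) * indicator (c p) 1` (so `inner (a p) u = gavg 0 0 1 m u p`).  The sets `c p` are disjoint and cover the square `sqh 0 0 1`, which
is `Qs` up to a null set (`mQ` is Lebesgue measure on `Qs`, and the lines `re z = 1`, `im z = 1` are null sets).  By `exists_op`,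
`norm_sub_sq` and `grid_est` (`D = univ`): `‖U.fst - P U.fst‖² ≤ 2 m⁻² ∫ ‖gr v‖² ≤ ε² ‖U‖²` (`norm_sq`).
-/

set_option autoImplicit false

namespace SOB

open MeasureTheory Filter Topology
open Pool.Agent.Helper53.CL

theorem mQ_finite : IsFiniteMeasure mQ := by
  have hK : IsCompact (Set.Icc (0 : ℝ) 1 ×ℂ Set.Icc (0 : ℝ) 1) := isCompact_Icc.reProdIm isCompact_Icc
  have hQ : Qs = Set.Icc (0 : ℝ) 1 ×ℂ Set.Icc (0 : ℝ) 1 := by
    ext z
    rw [Complex.mem_reProdIm]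
    simp only [Qs, Set.mem_setOf_eq, Set.mem_Icc]
    tauto
  refine ⟨?_⟩
  rw [mQ, Measure.restrict_apply_univ, hQ]
  exact hK.measure_lt_top

private theorem h7_re : volume {z : ℂ | z.re = 1} = 0 := by
  have h1 : {z : ℂ | z.re = 1} = Complex.measurableEquivRealProd ⁻¹' ({1} ×ˢ Set.univ) := by
    ext z
    simp [Complex.measurableEquivRealProd_apply]
  rw [h1, Complex.volume_preserving_equiv_real_prod.measure_preimage
    ((measurableSet_singleton _).prod MeasurableSet.univ).nullMeasurableSet, Measure.volume_eq_prod,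
    Measure.prod_prod, measure_singleton, zero_mul]

private theorem h7_im : volume {z : ℂ | z.im = 1} = 0 := by
  have h1 : {z : ℂ | z.im = 1} = Complex.measurableEquivRealProd ⁻¹' (Set.univ ×ˢ {1}) := by
    ext z
    simp [Complex.measurableEquivRealProd_apply]
  rw [h1, Complex.volume_preserving_equiv_real_prod.measure_preimage
    (MeasurableSet.univ.prod (measurableSet_singleton _)).nullMeasurableSet, Measure.volume_eq_prod,
    Measure.prod_prod, measure_singleton, mul_zero]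

/-- the half open square carries the measure -/
theorem mQ_eq : mQ = volume.restrict (sqh 0 0 1) := by
  refine Measure.restrict_congr_set ?_
  have hsub : sqh 0 0 1 ⊆ Qs := by
    rintro z ⟨h1, h2, h3, h4⟩
    rw [zero_add] at h2 h4
    exact ⟨h1, h2.le, h3, h4.le⟩
  have hnull : volume (Qs \ sqh 0 0 1) = 0 := by
    refine measure_mono_null (t := {z : ℂ | z.re = 1} ∪ {z : ℂ | z.im = 1}) ?_
      (measure_union_null h7_re h7_im)
    rintro z ⟨⟨h1, h2, h3, h4⟩, h5⟩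
    by_contra h6
    rw [Set.mem_union, not_or] at h6
    apply h5
    refine ⟨h1, ?_, h3, ?_⟩
    · rw [zero_add]
      exact lt_of_le_of_ne h2 h6.1
    · rw [zero_add]
      exact lt_of_le_of_ne h4 h6.2
  exact (ae_eq_set.2 ⟨hnull, by rw [Set.diff_eq_empty.2 hsub, measure_empty]⟩)

theorem rellQ : ∀ ε > 0, ∃ P : Lp ℝ 2 mQ →L[ℝ] Lp ℝ 2 mQ, IsCompactOperator P ∧
    ∀ (U : JetSp mQ) (v : ℂ → ℝ) (g : ℂ → ℂ), JQ v g → IsJet U v g → ‖U.fst - P U.fst‖ ≤ ε * ‖U‖ := by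
  intro ε hε
  haveI := mQ_finite
  obtain ⟨n, hn⟩ := exists_nat_gt (2 / ε)
  obtain ⟨m, hm⟩ : ∃ m : ℕ, m = n + 1 := ⟨_, rfl⟩
  have hm1 : 1 ≤ m := by omega
  have hm0 : (0 : ℝ) < m := by exact_mod_cast hm1
  have hmε : 2 / ε ≤ m := by
    rw [hm]
    push_cast
    linarith
  have hmε2 : 2 * (1 / (m : ℝ)) ^ 2 ≤ ε ^ 2 := by
    have h1 : 2 ≤ m * ε := by rwa [div_le_iff₀ hε] at hmε
    have h2 : (m * ε) ^ 2 ≥ 2 := by nlinarith
    rw [div_pow, one_pow, mul_one_div, div_le_iff₀ (by positivity)]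
    nlinarith
  have hms : ∀ p, MeasurableSet (gsq 0 0 1 m p) := fun p => measurableSet_sqh _ _ _
  obtain ⟨P, hP, hPu⟩ := exists_op (A := mQ) (gidx m) (gsq 0 0 1 m) hms
    (fun p => ((m : ℝ) ^ 2) • indicatorConstLp 2 (hms p) (measure_ne_top _ _) (1 : ℝ))
  refine ⟨P, hP, ?_⟩
  rintro U v g ⟨hv, rfl⟩ hU
  have hcov := grid_cover (α := 0) (β := 0) (L := 1) one_pos hm1
  have hsub : ∀ p ∈ gidx m, gsq 0 0 1 m p ⊆ sqh 0 0 1 := by
    intro p hp
    rw [hcov]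
    exact Set.subset_biUnion_of_mem (u := fun p => gsq 0 0 1 m p) hp
  have hres : ∀ p ∈ gidx m, mQ.restrict (gsq 0 0 1 m p) = volume.restrict (gsq 0 0 1 m p) := by
    intro p hp
    rw [mQ_eq, Measure.restrict_restrict (hms p), Set.inter_eq_left.2 (hsub p hp)]
  have hin : ∀ p ∈ gidx m, inner ℝ (((m : ℝ) ^ 2) • indicatorConstLp 2 (hms p) (measure_ne_top mQ _) (1 : ℝ))
      U.fst = gavg 0 0 1 m v p := by
    intro p hp
    rw [real_inner_smul_left, L2.inner_indicatorConstLp_one]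
    have h1 : ∫ x in gsq 0 0 1 m p, U.fst x ∂mQ = ∫ x in gsq 0 0 1 m p, v x ∂mQ :=
      integral_congr_ae (ae_restrict_of_ae hU.1)
    rw [h1, hres p hp, gavg, avg, gsq]
    congr 1
    field_simp
  have hPu' : P U.fst =ᵐ[mQ] fun x => ∑ p ∈ gidx m, (gsq 0 0 1 m p).indicator (fun _ => gavg 0 0 1 m v p) x := by
    filter_upwards [hPu U.fst] with x hx
    rw [hx]
    refine Finset.sum_congr rfl fun p hp => ?_
    rw [hin p hp]
  have hd : ((gidx m : Finset (ℕ × ℕ)) : Set (ℕ × ℕ)).PairwiseDisjoint (gsq 0 0 1 m) :=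
    fun p _ q _ hpq => grid_disj one_pos hm1 hpq
  have hc : ∀ᵐ x ∂mQ, ∃ p ∈ gidx m, x ∈ gsq 0 0 1 m p := by
    rw [mQ_eq]
    filter_upwards [ae_restrict_mem (measurableSet_sqh 0 0 1)] with x hx
    rw [hcov] at hx
    simpa using hx
  have h1 := norm_sub_sq (gidx m) (gsq 0 0 1 m) hms hd hc (gavg 0 0 1 m v) hU.1 hPu'
  have h2 : ∑ p ∈ gidx m, ∫ x in gsq 0 0 1 m p, (v x - gavg 0 0 1 m v p) ^ 2 ∂mQ =
      ∑ p ∈ gidx m, ∫ x in gsq 0 0 1 m p, (v x - gavg 0 0 1 m v p) ^ 2 :=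
    Finset.sum_congr rfl fun p hp => by rw [hres p hp]
  have h3 := grid_est (α := 0) (β := 0) (L := 1) one_pos hm1 isOpen_univ hv.contDiffOn
    (fun _ _ _ _ _ => Set.mem_univ _)
  have h4 := norm_sq hU
  have h5 : ∫ x, ‖gr v x‖ ^ 2 ∂mQ = ∫ z in sqh 0 0 1, ‖gr v z‖ ^ 2 := by rw [mQ_eq]
  have h6 : 0 ≤ ∫ z in sqh 0 0 1, ‖gr v z‖ ^ 2 := integral_nonneg fun z => by positivity
  have h7 : 0 ≤ ∫ x, v x ^ 2 ∂mQ := integral_nonneg fun z => by positivity
  have h8 : ‖U.fst - P U.fst‖ ^ 2 ≤ (ε * ‖U‖) ^ 2 := by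
    rw [h1, h2, mul_pow, h4, h5]
    refine h3.trans ?_
    calc 2 * (1 / (m : ℝ)) ^ 2 * ∫ z in sqh 0 0 1, ‖gr v z‖ ^ 2
        ≤ ε ^ 2 * ∫ z in sqh 0 0 1, ‖gr v z‖ ^ 2 := mul_le_mul_of_nonneg_right hmε2 h6
      _ ≤ _ := mul_le_mul_of_nonneg_left (by linarith) (by positivity)
  exact (sq_le_sq₀ (norm_nonneg _) (by positivity)).1 h8

end SOB
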