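import Pool.Agent.Helper57.SOB.InjQ
import Pool.Agent.Helper57.SOB.RellQ
import Pool.Agent.Helper57.SOB.Rell
import Pool.Agent.Helper57.SOB.Comp

/-! # SOB-11 The Sobolev space of the unit square is an energy space -/

set_option autoImplicit false

namespace SOB

open MeasureTheory Filter Topology
open Pool.Agent.Helper53.CL

theorem isESpace_HQ : IsESpace HQ := by
  rw [HQ_eq]
  exact ⟨isClosed_HJ, one_mem jclassQ, injQ, rellich_of jclassQ rellQ⟩

theorem compStable_HQ : CompStable HQ := by
  have := mQ_finite
  rw [HQ_eq]
  exact compStable jclassQ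

end SOB
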