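import Pool.Agent.Helper57.SOB.Defs

/-!
# SOB-08 Integration by parts against test functions

TO PROVE (in place).  The function `f z = v z * φ z` is of class `C^1` on `ℂ` (on `D` it is a product; near a point outside
`tsupport φ` it is zero) with compact support, so `∫ dx f = 0` and `∫ dy f = 0`
(`integral_mul_fderiv_eq_neg_fderiv_mul_of_integrable` with one factor the constant `1`, or
`integral_bilinear_hasLineDerivAt_right_eq_neg_left_of_integrable`).
`dx f z = dx v z * φ z + v z * dx φ z` for all `z` (on `D` the product rule, outside `tsupport φ` both sides are zero), and both summands are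
continuous with compact support, hence integrable.
-/

set_option autoImplicit false

namespace SOB

open MeasureTheory Filter Topology
open scoped ContDiff
open Pool.Agent.Helper53.CL

private theorem integrable_mul_test {D : Set ℂ} (hD : IsOpen D) {g : ℂ → ℝ} (hg : ContinuousOn g D)
    {ψ : ℂ → ℝ} (hψ : Continuous ψ) (hc : HasCompactSupport ψ) (hs : tsupport ψ ⊆ D) :
    Integrable (fun z => g z * ψ z) := by
  have h1 : tsupport (fun z => g z * ψ z) ⊆ D := (tsupport_mul_subset_right).trans hs
  have h2 : Continuous (fun z => g z * ψ z) :=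
    (hg.mul hψ.continuousOn).continuous_of_tsupport_subset hD h1
  exact h2.integrable_of_hasCompactSupport hc.mul_left

private theorem ibp_dir {D : Set ℂ} (hD : IsOpen D) {v : ℂ → ℝ} (hv : ContDiffOn ℝ 1 v D) {φ : ℂ → ℝ}
    (hφ : ContDiff ℝ ∞ φ) (hc : HasCompactSupport φ) (hs : tsupport φ ⊆ D) (w : ℂ) :
    ∫ z, v z * fderiv ℝ φ z w = -∫ z, fderiv ℝ v z w * φ z := by
  have hvf : ContinuousOn (fun z => fderiv ℝ v z w) D :=
    (hv.continuousOn_fderiv_of_isOpen hD le_rfl).clm_apply continuousOn_const
  have hφf : Continuous (fun z => fderiv ℝ φ z w) :=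
    (hφ.continuous_fderiv (by simp)).clm_apply continuous_const
  have hs' : tsupport (fun z => fderiv ℝ φ z w) ⊆ tsupport φ := tsupport_fderiv_apply_subset ℝ w
  have hc' : HasCompactSupport (fun z => fderiv ℝ φ z w) := hc.fderiv_apply ℝ w
  refine integral_mul_fderiv_eq_neg_fderiv_mul_of_integrable
    (integrable_mul_test hD hvf hφ.continuous hc hs)
    (integrable_mul_test hD hv.continuousOn hφf hc' (hs'.trans hs))
    (integrable_mul_test hD hv.continuousOn hφ.continuous hc hs) ?_ ?_
  · intro x hx
    exact (hv.contDiffAt (hD.mem_nhds (hs hx))).differentiableAt (by simp)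
  · intro x _
    exact hφ.contDiffAt.differentiableAt (by simp)

theorem ibp {D : Set ℂ} (hD : IsOpen D) {v : ℂ → ℝ} (hv : ContDiffOn ℝ 1 v D) {φ : ℂ → ℝ} (hφ : ContDiff ℝ ∞ φ)
    (hc : HasCompactSupport φ) (hs : tsupport φ ⊆ D) :
    (∫ z, v z * dx φ z = -∫ z, dx v z * φ z) ∧ (∫ z, v z * dy φ z = -∫ z, dy v z * φ z) :=
  ⟨ibp_dir hD hv hφ hc hs 1, ibp_dir hD hv hφ hc hs Complex.I⟩

/-- two square integrable functions on an open set with the same integrals against test functions agree -/
theorem eq_zero_of_test {D : Set ℂ} (hD : IsOpen D) {f : ℂ → ℂ} (hf : LocallyIntegrableOn f D)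
    (h : ∀ φ : ℂ → ℝ, ContDiff ℝ ∞ φ → HasCompactSupport φ → tsupport φ ⊆ D →
      (∫ z, φ z * (f z).re = 0) ∧ ∫ z, φ z * (f z).im = 0) :
    ∀ᵐ z, z ∈ D → f z = 0 := by
  have hre : LocallyIntegrableOn (fun z => (f z).re) D := by
    intro x hx
    obtain ⟨s, hs, hi⟩ := hf x hx
    exact ⟨s, hs, hi.re⟩
  have him : LocallyIntegrableOn (fun z => (f z).im) D := by
    intro x hx
    obtain ⟨s, hs, hi⟩ := hf x hx
    exact ⟨s, hs, hi.im⟩
  have h1 := hD.ae_eq_zero_of_integral_contDiff_smul_eq_zero hre
    (fun g g1 g2 g3 => by simpa only [smul_eq_mul] using (h g g1 g2 g3).1)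
  have h2 := hD.ae_eq_zero_of_integral_contDiff_smul_eq_zero him
    (fun g g1 g2 g3 => by simpa only [smul_eq_mul] using (h g g1 g2 g3).2)
  filter_upwards [h1, h2] with z a b hz
  exact Complex.ext (a hz) (b hz)

end SOB
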