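import Pool.Agent.Helper57.SOB.RellS1
import Pool.Agent.Helper57.SOB.FinRank
import Pool.Agent.Helper57.SOB.Abs

/-!
# SOB-15 Approximation by operators of finite rank on a surface

TO PROVE (in place).  Take `K` larger than all constants of `chart_est`, and `m ≥ 1` with `n K / m² ≤ ε²` (`n = C.n`).  Index set
`univ ×ˢ gidx m` (`Fin C.n × (ℕ × ℕ)`), `c (i, p) = {x | C.idx x = i} ∩ ((C.φ i).source ∩ C.φ i ⁻¹' gsq (-1) (-1) 2 m p)`: measurable
(`H.measurable_idx`; the chart is continuous on its open source), pairwise disjoint, and they cover `S`, since `C.idx x = i` implies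
`x ∈ source`, `φ i x ∈ ball 0 1 ⊆ sqh (-1) (-1) 2` (`grid_cover`, `grid_disj`).
`a (i, p)` is the class of the bounded function `((2/m)²)⁻¹ / ρ i (φ i x)` on `source ∩ φ i ⁻¹' gsq`, zero elsewhere, so
`inner (a (i,p)) u = ((2/m)²)⁻¹ ∫_{gsq} u((φ i).symm z) dz` (`H.integral_chart`), which for `u = v` almost everywhere is
`gavg (-1) (-1) 2 m (v ∘ (φ i).symm) p`.
By `exists_op`, `norm_sub_sq` and `chart_est` (enlarging `c (i, p)` to `source ∩ φ i ⁻¹' gsq`; the integrands are nonnegative, bounded):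
`‖U.fst - P U.fst‖² ≤ ∑ i, K / m² ∫ ‖C.grad v‖² ≤ ε² ‖U‖²` (`norm_sq`).
-/

set_option autoImplicit false

namespace SOB

open MeasureTheory Filter Topology Metric
open Pool.Agent.Helper53.CL

private lemma h45_idx_spec {S : Type*} [TopologicalSpace S] [MeasurableSpace S]
    (C : CSurf S) (x : S) :
    x ∈ (C.φ (C.idx x)).source ∧ C.φ (C.idx x) x ∈ ball (0 : ℂ) 1 := by
  classical
  have h := Finset.min'_mem (Finset.univ.filter fun i =>
    x ∈ (C.φ i).source ∧ C.φ i x ∈ ball (0 : ℂ) 1)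
    (let ⟨i, hi⟩ := C.cover x; ⟨i, Finset.mem_filter.2 ⟨Finset.mem_univ i, hi⟩⟩)
  have h2 := (Finset.mem_filter.1 h).2
  convert h2 using 2 <;> unfold CSurf.idx <;> congr!

private lemma h45_gsq_sub {m : ℕ} (hm : 1 ≤ m) {p : ℕ × ℕ} (hp : p ∈ gidx m) :
    gsq (-1) (-1) 2 m p ⊆ sqh (-1) (-1) 2 := by
  rw [grid_cover (α := -1) (β := -1) (L := 2) (by norm_num) hm]
  exact Set.subset_biUnion_of_mem (u := fun p => gsq (-1) (-1) 2 m p) hp

private lemma h45_ball_sub : ball (0 : ℂ) 1 ⊆ sqh (-1) (-1) 2 := by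
  intro z hz
  rw [mem_ball_zero_iff] at hz
  have h1 := abs_lt.1 ((Complex.abs_re_le_norm z).trans_lt hz)
  have h2 := abs_lt.1 ((Complex.abs_im_le_norm z).trans_lt hz)
  exact ⟨h1.1.le, by linarith [h1.2], h2.1.le, by linarith [h2.2]⟩

private lemma h45_closed :
    IsCompact {z : ℂ | -1 ≤ z.re ∧ z.re ≤ 1 ∧ -1 ≤ z.im ∧ z.im ≤ 1} ∧
    {z : ℂ | -1 ≤ z.re ∧ z.re ≤ 1 ∧ -1 ≤ z.im ∧ z.im ≤ 1} ⊆ ball 0 3 := by
  have sq_sub : {z : ℂ | -1 ≤ z.re ∧ z.re ≤ 1 ∧ -1 ≤ z.im ∧ z.im ≤ 1} ⊆ ball 0 3 := by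
    rintro z ⟨h1, h2, h3, h4⟩
    rw [mem_ball_zero_iff]
    refine (Complex.norm_le_abs_re_add_abs_im z).trans_lt ?_
    have h5 : |z.re| ≤ 1 := abs_le.2 ⟨h1, h2⟩
    have h6 : |z.im| ≤ 1 := abs_le.2 ⟨h3, h4⟩
    linarith
  refine ⟨?_, sq_sub⟩
  refine Metric.isCompact_of_isClosed_isBounded ?_ (Metric.isBounded_ball.subset sq_sub)
  have h : {z : ℂ | -1 ≤ z.re ∧ z.re ≤ 1 ∧ -1 ≤ z.im ∧ z.im ≤ 1} =
      {z : ℂ | -1 ≤ z.re} ∩ ({z | z.re ≤ 1} ∩ ({z | -1 ≤ z.im} ∩ {z | z.im ≤ 1})) := rfl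
  rw [h]
  exact (isClosed_le continuous_const Complex.continuous_re).inter
    ((isClosed_le Complex.continuous_re continuous_const).inter
      ((isClosed_le continuous_const Complex.continuous_im).inter
        (isClosed_le Complex.continuous_im continuous_const)))

private lemma h45_avg {S : Type*} [TopologicalSpace S] [MeasurableSpace S] [BorelSpace S]
    [CompactSpace S] (C : CSurf S) (i : Fin C.n) {m : ℕ} (hm : 1 ≤ m) {p : ℕ × ℕ}
    (hp : p ∈ gidx m) :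
    ∃ a : Lp ℝ 2 C.area, ∀ (u : Lp ℝ 2 C.area) (v : S → ℝ), u =ᵐ[C.area] v →
      inner ℝ a u = gavg (-1) (-1) 2 m (v ∘ (C.φ i).symm) p := by
  have hfin := Pool.Agent.Helper53.CL.H.area_finite C
  obtain ⟨B, hB⟩ : ∃ B, B = (C.φ i).source ∩ C.φ i ⁻¹' gsq (-1) (-1) 2 m p := ⟨_, rfl⟩
  have hgm : MeasurableSet (gsq (-1) (-1) 2 m p) := measurableSet_sqh _ _ _
  have hBm : MeasurableSet B := by rw [hB]; exact meas_src_inter C i hgm
  have hg3 : gsq (-1) (-1) 2 m p ⊆ ball 0 3 := (h45_gsq_sub hm hp).trans sqh_sub_ball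
  have hgQ := (h45_gsq_sub hm hp).trans sqh_sub_sq
  have hρc : ContinuousOn (fun z => (C.ρ i z)⁻¹) (ball 0 3) :=
    (C.ρ_smooth i).continuousOn.inv₀ fun z hz => (C.ρ_pos i z hz).ne'
  obtain ⟨K₁, hK₁⟩ := h45_closed.1.exists_bound_of_continuousOn (hρc.mono h45_closed.2)
  have hK₁0 : 0 ≤ K₁ := (norm_nonneg _).trans (hK₁ 0 (by simp))
  obtain ⟨t, ht⟩ : ∃ t, t = ((2 / (m : ℝ)) ^ 2)⁻¹ := ⟨_, rfl⟩
  have hcont : ContinuousOn (fun x => t * (C.ρ i (C.φ i x))⁻¹) (C.φ i).source := by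
    refine continuousOn_const.mul (hρc.comp (C.φ i).continuousOn fun x hx => ?_)
    rw [← C.target i]
    exact (C.φ i).map_source hx
  have hmem : MemLp (B.indicator fun x => t * (C.ρ i (C.φ i x))⁻¹) 2 C.area := by
    refine MemLp.of_bound ?_ (|t| * K₁) (Filter.Eventually.of_forall fun x => ?_)
    · refine (aestronglyMeasurable_indicator_iff hBm).2 ?_
      refine (hcont.mono ?_).aestronglyMeasurable hBm
      rw [hB]
      exact Set.inter_subset_left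
    · by_cases hx : x ∈ B
      · rw [Set.indicator_of_mem hx, norm_mul, Real.norm_eq_abs]
        refine mul_le_mul_of_nonneg_left (hK₁ _ ?_) (abs_nonneg _)
        rw [hB] at hx
        exact hgQ hx.2
      · rw [Set.indicator_of_notMem hx, norm_zero]
        positivity
  refine ⟨hmem.toLp _, fun u v huv => ?_⟩
  rw [L2.inner_def]
  have h1 : ∫ x, inner ℝ ((hmem.toLp _ : Lp ℝ 2 C.area) x) (u x) ∂C.area =
      ∫ x, B.indicator (fun x => t * (C.ρ i (C.φ i x))⁻¹ * v x) x ∂C.area := by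
    refine integral_congr_ae ?_
    filter_upwards [huv, hmem.coeFn_toLp] with x hx1 hx2
    rw [hx1, hx2]
    by_cases hx : x ∈ B
    · rw [Set.indicator_of_mem hx, Set.indicator_of_mem hx]
      simp only [RCLike.inner_apply, conj_trivial]
      ring
    · rw [Set.indicator_of_notMem hx, Set.indicator_of_notMem hx, inner_zero_left]
  rw [h1, integral_indicator hBm, hB, integral_src_inter C i hgm hg3]
  have h2 : ∫ z in gsq (-1) (-1) 2 m p, C.ρ i z * (t * (C.ρ i (C.φ i ((C.φ i).symm z)))⁻¹ *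
      v ((C.φ i).symm z)) = ∫ z in gsq (-1) (-1) 2 m p, t * (v ∘ (C.φ i).symm) z := by
    refine setIntegral_congr_fun hgm fun z hz => ?_
    have hz3 := hg3 hz
    have hzt : z ∈ (C.φ i).target := by rw [C.target]; exact hz3
    have hne := (C.ρ_pos i z hz3).ne'
    simp only [Function.comp_apply]
    rw [(C.φ i).right_inv hzt]
    field_simp
  rw [h2, integral_const_mul, ht]
  rfl

theorem rellS {S : Type*} [TopologicalSpace S] [MeasurableSpace S] [BorelSpace S] [CompactSpace S]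
    (C : CSurf S) : ∀ ε > 0, ∃ P : Lp ℝ 2 C.area →L[ℝ] Lp ℝ 2 C.area, IsCompactOperator P ∧
    ∀ (U : JetSp C.area) (v : S → ℝ) (g : S → ℂ), JS C v g → IsJet U v g → ‖U.fst - P U.fst‖ ≤ ε * ‖U‖ := by
  intro ε hε
  have hfin := Pool.Agent.Helper53.CL.H.area_finite C
  choose K hK0 hK using fun i => chart_est C i
  obtain ⟨m, hm, hmK⟩ : ∃ m : ℕ, 1 ≤ m ∧ (∑ i, K i) / (m : ℝ) ^ 2 ≤ ε ^ 2 := by
    obtain ⟨n, hn⟩ := exists_nat_ge ((∑ i, K i) / ε ^ 2)
    refine ⟨n + 1, by omega, ?_⟩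
    have hε2 : 0 < ε ^ 2 := by positivity
    have h1 : (∑ i, K i) ≤ n * ε ^ 2 := (div_le_iff₀ hε2).1 hn
    rw [div_le_iff₀ (by positivity)]
    push_cast
    have h2 : (n : ℝ) ≤ ((n : ℝ) + 1) ^ 2 := by
      have : (0 : ℝ) ≤ n := Nat.cast_nonneg n
      nlinarith
    calc (∑ i, K i) ≤ n * ε ^ 2 := h1
      _ ≤ ((n : ℝ) + 1) ^ 2 * ε ^ 2 := mul_le_mul_of_nonneg_right h2 hε2.le
      _ = ε ^ 2 * ((n : ℝ) + 1) ^ 2 := mul_comm _ _
  obtain ⟨B, hB⟩ : ∃ B : Fin C.n × (ℕ × ℕ) → Set S,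
    B = fun q => (C.φ q.1).source ∩ C.φ q.1 ⁻¹' gsq (-1) (-1) 2 m q.2 := ⟨_, rfl⟩
  obtain ⟨c, hc⟩ : ∃ c : Fin C.n × (ℕ × ℕ) → Set S,
    c = fun q => {x | C.idx x = q.1} ∩ B q := ⟨_, rfl⟩
  have hBm : ∀ q, MeasurableSet (B q) := fun q => by
    rw [hB]
    exact meas_src_inter C q.1 (measurableSet_sqh _ _ _)
  have hcm : ∀ q, MeasurableSet (c q) := fun q => by
    rw [hc]
    exact (Pool.Agent.Helper53.CL.H.measurable_idx C (measurableSet_singleton q.1)).inter (hBm q)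
  have hcB : ∀ q, c q ⊆ B q := fun q => by
    rw [hc]
    exact Set.inter_subset_right
  obtain ⟨I, hI⟩ : ∃ I : Finset (Fin C.n × (ℕ × ℕ)), I = Finset.univ ×ˢ gidx m := ⟨_, rfl⟩
  have hex : ∀ q : Fin C.n × (ℕ × ℕ), ∃ a : Lp ℝ 2 C.area, q.2 ∈ gidx m →
      ∀ (u : Lp ℝ 2 C.area) (v : S → ℝ), u =ᵐ[C.area] v →
      inner ℝ a u = gavg (-1) (-1) 2 m (v ∘ (C.φ q.1).symm) q.2 := by
    intro q
    by_cases hq : q.2 ∈ gidx m
    · obtain ⟨a, ha⟩ := h45_avg C q.1 hm hq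
      exact ⟨a, fun _ => ha⟩
    · exact ⟨0, fun h => absurd h hq⟩
  choose a ha using hex
  have hd : (I : Set (Fin C.n × (ℕ × ℕ))).PairwiseDisjoint c := by
    intro q _ q' _ hqq
    rw [Function.onFun, Set.disjoint_left]
    intro x hx hx'
    rw [hc] at hx hx'
    have e1 : q.1 = q'.1 := hx.1.symm.trans hx'.1
    have e2 : q.2 ≠ q'.2 := fun h => hqq (Prod.ext e1 h)
    have h1 := hx.2
    have h2 := hx'.2
    rw [hB] at h1 h2
    simp only at h1 h2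
    rw [← e1] at h2
    exact Set.disjoint_left.1 (grid_disj (α := -1) (β := -1) (L := 2) (by norm_num) hm e2) h1.2 h2.2
  have hcov : ∀ᵐ x ∂C.area, ∃ q ∈ I, x ∈ c q := by
    refine Filter.Eventually.of_forall fun x => ?_
    obtain ⟨h1, h2⟩ := h45_idx_spec C x
    have h3 := h45_ball_sub h2
    rw [grid_cover (α := -1) (β := -1) (L := 2) (by norm_num) hm] at h3
    obtain ⟨p, hp, hxp⟩ := Set.mem_iUnion₂.1 h3
    refine ⟨(C.idx x, p), ?_, ?_⟩
    · rw [hI, Finset.mem_product]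
      exact ⟨Finset.mem_univ _, hp⟩
    · rw [hc, hB]
      exact ⟨rfl, h1, hxp⟩
  obtain ⟨P, hPc, hP⟩ := exists_op (A := C.area) I c hcm a
  refine ⟨P, hPc, fun U v g hJ hU => ?_⟩
  obtain ⟨hv, hg⟩ := hJ
  have hvc := Pool.Agent.Helper53.CL.H.continuous_of_isC1 C hv
  have h1 := norm_sub_sq I c hcm hd hcov (fun q => inner ℝ (a q) U.fst) hU.1 (hP U.fst)
  have hnn := norm_sq hU
  have h2 : ∑ q ∈ I, ∫ x in c q, (v x - inner ℝ (a q) U.fst) ^ 2 ∂C.area ≤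
      ∑ q ∈ I, ∫ x in B q, (v x - gavg (-1) (-1) 2 m (v ∘ (C.φ q.1).symm) q.2) ^ 2 ∂C.area := by
    refine Finset.sum_le_sum fun q hq => ?_
    rw [hI, Finset.mem_product] at hq
    rw [ha q hq.2 U.fst v hU.1]
    refine setIntegral_mono_set ?_ ?_ (hcB q).eventuallyLE
    · obtain ⟨M, hM⟩ := isCompact_univ.exists_bound_of_continuousOn
        ((hvc.sub continuous_const).pow 2 : Continuous fun x =>
          (v x - gavg (-1) (-1) 2 m (v ∘ (C.φ q.1).symm) q.2) ^ 2).continuousOn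
      exact (Integrable.of_bound ((hvc.sub continuous_const).pow 2).aestronglyMeasurable M
        (Filter.Eventually.of_forall fun x => hM x (Set.mem_univ x))).integrableOn
    · exact Filter.Eventually.of_forall fun x => sq_nonneg _
  have h3 : ∑ q ∈ I, ∫ x in B q, (v x - gavg (-1) (-1) 2 m (v ∘ (C.φ q.1).symm) q.2) ^ 2 ∂C.area ≤
      (∑ i, K i) / (m : ℝ) ^ 2 * ∫ x, ‖C.grad v x‖ ^ 2 ∂C.area := by
    rw [hI, Finset.sum_product, Finset.sum_div, Finset.sum_mul]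
    refine Finset.sum_le_sum fun i _ => ?_
    rw [hB]
    exact hK i m hm v hv
  have hgrad0 : 0 ≤ ∫ x, ‖C.grad v x‖ ^ 2 ∂C.area := integral_nonneg fun x => sq_nonneg _
  have hv0 : 0 ≤ ∫ x, v x ^ 2 ∂C.area := integral_nonneg fun x => sq_nonneg _
  refine abs_le_of_sq_le_sq' ?_ (by positivity) |>.2
  calc ‖U.fst - P U.fst‖ ^ 2 ≤ (∑ i, K i) / (m : ℝ) ^ 2 * ∫ x, ‖C.grad v x‖ ^ 2 ∂C.area := by
        rw [h1]
        exact h2.trans h3
    _ ≤ ε ^ 2 * ∫ x, ‖C.grad v x‖ ^ 2 ∂C.area := mul_le_mul_of_nonneg_right hmK hgrad0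
    _ ≤ ε ^ 2 * ‖U‖ ^ 2 := by
        refine mul_le_mul_of_nonneg_left ?_ (sq_nonneg _)
        rw [hnn, hg]
        linarith
    _ = (ε * ‖U‖) ^ 2 := by ring

end SOB
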