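import Pool.Agent.Helper57.SOB.InjS
import Pool.Agent.Helper57.SOB.RellS2
import Pool.Agent.Helper57.SOB.Rell
import Pool.Agent.Helper57.SOB.Comp
import Pool.Agent.Helper53.CL.Iface

/-! # SOB-16 The Sobolev space of a surface is an energy space: the statement `Sob` -/

set_option autoImplicit false

namespace SOB

open MeasureTheory Filter Topology
open Pool.Agent.Helper53.CL

universe u

theorem sob (S : Type u) [TopologicalSpace S] [CompactSpace S] [T2Space S] [MeasurableSpace S] [BorelSpace S] :
    Iface.Sob S := by
  intro C
  have := H.area_finite C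
  refine ⟨inferInstance, ?_, ?_⟩
  · rw [HS_eq]
    exact ⟨isClosed_HJ, one_mem (jclassS C), injS C, rellich_of (jclassS C) (rellS C)⟩
  · rw [HS_eq]
    exact compStable (jclassS C)

end SOB
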