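import Pool.Agent.Helper53.CL.Defs

/-!
# Project CL, block B, the Sobolev spaces: definitions

`JClass A J`: a class of pairs (function, gradient) closed under linear combinations and composition; `HJ A J` is the closure of its
jets.  The spaces `HQ` and `C.HS` are of this form.
-/

set_option autoImplicit false

namespace SOB

open MeasureTheory Filter Topology
open scoped ContDiff Real
open Pool.Agent.Helper53.CL

variable {Ω : Type*} [MeasurableSpace Ω]

/-- A class of pairs (function, gradient). -/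
structure JClass (A : Measure Ω) (J : (Ω → ℝ) → (Ω → ℂ) → Prop) : Prop where
  memLp : ∀ v g, J v g → MemLp v 2 A ∧ MemLp g 2 A
  one : J (fun _ => 1) (fun _ => 0)
  add : ∀ v g v' g', J v g → J v' g' → J (v + v') (g + g')
  smul : ∀ (c : ℝ) v g, J v g → J (c • v) (c • g)
  comp : ∀ k : ℝ → ℝ, ContDiff ℝ 1 k → ∀ v g, J v g →
    J (fun x => k (v x)) (fun x => ((deriv k (v x) : ℝ) : ℂ) * g x)

/-- The closure of the jets of a class. -/
noncomputable def HJ (A : Measure Ω) (J : (Ω → ℝ) → (Ω → ℂ) → Prop) : Submodule ℝ (JetSp A) :=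
  (Submodule.span ℝ {U | ∃ v g, J v g ∧ IsJet U v g}).topologicalClosure

/-- The half open square. -/
def sqh (a b h : ℝ) : Set ℂ := {z | a ≤ z.re ∧ z.re < a + h ∧ b ≤ z.im ∧ z.im < b + h}

/-- The mean value on the square. -/
noncomputable def avg (a b h : ℝ) (v : ℂ → ℝ) : ℝ := (h ^ 2)⁻¹ * ∫ z in sqh a b h, v z

/-- Pairs for the unit square. -/
def JQ (v : ℂ → ℝ) (g : ℂ → ℂ) : Prop := ContDiff ℝ 1 v ∧ g = gr v

/-- Pairs for a surface. -/
def JS {S : Type*} [TopologicalSpace S] [MeasurableSpace S] (C : CSurf S) (v : S → ℝ) (g : S → ℂ) : Prop :=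
  C.IsC1 v ∧ g = C.grad v

theorem HQ_eq : HQ = HJ mQ JQ := by
  unfold HQ HJ JQ
  congr 2
  ext U
  constructor
  · rintro ⟨v, hv, hU⟩
    exact ⟨v, gr v, ⟨hv, rfl⟩, hU⟩
  · rintro ⟨v, g, ⟨hv, rfl⟩, hU⟩
    exact ⟨v, hv, hU⟩

theorem HS_eq {S : Type*} [TopologicalSpace S] [MeasurableSpace S] (C : CSurf S) :
    C.HS = HJ C.area (JS C) := by
  unfold CSurf.HS HJ JS
  congr 2
  ext U
  constructor
  · rintro ⟨v, hv, hU⟩
    exact ⟨v, C.grad v, ⟨hv, rfl⟩, hU⟩
  · rintro ⟨v, g, ⟨hv, rfl⟩, hU⟩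
    exact ⟨v, hv, hU⟩

end SOB
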