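import Pool.Agent.Helper57.SOB.Poinc

/-!
# SOB-05 The grid

TO PROVE (in place).

* `grid_cover`: `z ∈ sqh α β L` iff there are `k, l < m` with `z` in the small square (`k = ⌊(z.re - α) m / L⌋`), and they are unique.
* `grid_est`: `poincare` on each small square and additivity of the integral of `‖gr v‖²` over the disjoint small squares
  (integrable: `gr v` is continuous on the closed square, which is compact and contained in `D`).
-/

set_option autoImplicit false

namespace SOB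

open MeasureTheory Filter Topology
open Pool.Agent.Helper53.CL

/-- The small square with the indices `(k, l)`. -/
def gsq (α β L : ℝ) (m : ℕ) (p : ℕ × ℕ) : Set ℂ := sqh (α + p.1 * (L / m)) (β + p.2 * (L / m)) (L / m)

/-- The mean value on the small square. -/
noncomputable def gavg (α β L : ℝ) (m : ℕ) (v : ℂ → ℝ) (p : ℕ × ℕ) : ℝ :=
  avg (α + p.1 * (L / m)) (β + p.2 * (L / m)) (L / m) v

/-- The set of indices. -/
def gidx (m : ℕ) : Finset (ℕ × ℕ) := Finset.range m ×ˢ Finset.range m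

theorem measurableSet_sqh (a b h : ℝ) : MeasurableSet (sqh a b h) := by
  have h1 : MeasurableSet {z : ℂ | a ≤ z.re} := measurableSet_le measurable_const Complex.measurable_re
  have h2 : MeasurableSet {z : ℂ | z.re < a + h} := measurableSet_lt Complex.measurable_re measurable_const
  have h3 : MeasurableSet {z : ℂ | b ≤ z.im} := measurableSet_le measurable_const Complex.measurable_im
  have h4 : MeasurableSet {z : ℂ | z.im < b + h} := measurableSet_lt Complex.measurable_im measurable_const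
  exact h1.inter (h2.inter (h3.inter h4))

theorem cell_exists {α L x : ℝ} (hL : 0 < L) {m : ℕ} (hm : 1 ≤ m) (h1 : α ≤ x) (h2 : x < α + L) :
    ∃ k < m, α + (k : ℝ) * (L / m) ≤ x ∧ x < α + (k : ℝ) * (L / m) + L / m := by
  have hm0 : (0 : ℝ) < m := by exact_mod_cast hm
  have hh : 0 < L / m := by positivity
  have h3 : 0 ≤ (x - α) / (L / m) := by
    apply div_nonneg _ hh.le
    linarith
  refine ⟨⌊(x - α) / (L / m)⌋₊, ?_, ?_, ?_⟩
  · rw [Nat.floor_lt h3, div_lt_iff₀ hh]
    have : (m : ℝ) * (L / m) = L := by field_simp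
    linarith
  · have h4 := Nat.floor_le h3
    rw [le_div_iff₀ hh] at h4
    linarith
  · have h4 := Nat.lt_floor_add_one ((x - α) / (L / m))
    rw [div_lt_iff₀ hh] at h4
    linarith

theorem cell_sub {α L : ℝ} (hL : 0 < L) {m : ℕ} (hm : 1 ≤ m) {k : ℕ} (hk : k < m) :
    α ≤ α + (k : ℝ) * (L / m) ∧ α + (k : ℝ) * (L / m) + L / m ≤ α + L := by
  have hm0 : (0 : ℝ) < m := by exact_mod_cast hm
  have hh : 0 < L / m := by positivity
  have hk0 : (0 : ℝ) ≤ k := Nat.cast_nonneg k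
  have hk1 : (k : ℝ) + 1 ≤ m := by exact_mod_cast hk
  have h1 : 0 ≤ (k : ℝ) * (L / m) := by positivity
  have h2 : ((k : ℝ) + 1) * (L / m) ≤ m * (L / m) := mul_le_mul_of_nonneg_right hk1 hh.le
  have h3 : (m : ℝ) * (L / m) = L := by field_simp
  constructor
  · linarith
  · linarith

theorem cell_unique {α L x : ℝ} (hL : 0 < L) {m : ℕ} (hm : 1 ≤ m) {k l : ℕ}
    (h1 : α + (k : ℝ) * (L / m) ≤ x) (h2 : x < α + (k : ℝ) * (L / m) + L / m)
    (h3 : α + (l : ℝ) * (L / m) ≤ x) (h4 : x < α + (l : ℝ) * (L / m) + L / m) : k = l := by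
  have hm0 : (0 : ℝ) < m := by exact_mod_cast hm
  have hh : 0 < L / m := by positivity
  have key : ∀ k l : ℕ, α + (k : ℝ) * (L / m) ≤ x → x < α + (l : ℝ) * (L / m) + L / m → k ≤ l := by
    intro k l h h'
    by_contra hkl
    push Not at hkl
    have h5 : (l : ℝ) + 1 ≤ k := by exact_mod_cast hkl
    have h6 : ((l : ℝ) + 1) * (L / m) ≤ k * (L / m) := mul_le_mul_of_nonneg_right h5 hh.le
    linarith
  exact le_antisymm (key k l h1 h4) (key l k h3 h2)

theorem grid_cover {α β L : ℝ} (hL : 0 < L) {m : ℕ} (hm : 1 ≤ m) :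
    sqh α β L = ⋃ p ∈ gidx m, gsq α β L m p := by
  ext z
  simp only [Set.mem_iUnion, gidx, Finset.mem_product, Finset.mem_range]
  constructor
  · rintro ⟨h1, h2, h3, h4⟩
    obtain ⟨k, hk, hk1, hk2⟩ := cell_exists hL hm h1 h2
    obtain ⟨l, hl, hl1, hl2⟩ := cell_exists hL hm h3 h4
    exact ⟨(k, l), ⟨hk, hl⟩, hk1, hk2, hl1, hl2⟩
  · rintro ⟨p, ⟨hk, hl⟩, h1, h2, h3, h4⟩
    have a1 := cell_sub (α := α) hL hm hk
    have a2 := cell_sub (α := β) hL hm hl
    exact ⟨a1.1.trans h1, h2.trans_le a1.2, a2.1.trans h3, h4.trans_le a2.2⟩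

theorem grid_disj {α β L : ℝ} (hL : 0 < L) {m : ℕ} (hm : 1 ≤ m) :
    Pairwise (Function.onFun Disjoint (gsq α β L m)) := by
  intro p q hpq
  rw [Function.onFun, Set.disjoint_left]
  rintro z ⟨h1, h2, h3, h4⟩ ⟨g1, g2, g3, g4⟩
  apply hpq
  exact Prod.ext (cell_unique hL hm h1 h2 g1 g2) (cell_unique hL hm h3 h4 g3 g4)

theorem grid_est {α β L : ℝ} (hL : 0 < L) {m : ℕ} (hm : 1 ≤ m) {v : ℂ → ℝ} {D : Set ℂ} (hD : IsOpen D)
    (hv : ContDiffOn ℝ 1 v D)
    (hsub : ∀ z : ℂ, α ≤ z.re → z.re ≤ α + L → β ≤ z.im → z.im ≤ β + L → z ∈ D) :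
    ∑ p ∈ gidx m, ∫ z in gsq α β L m p, (v z - gavg α β L m v p) ^ 2 ≤
      2 * (L / m) ^ 2 * ∫ z in sqh α β L, ‖gr v z‖ ^ 2 := by
  have hm0 : (0 : ℝ) < m := by exact_mod_cast hm
  have hh : 0 < L / m := by positivity
  have h1 : ∀ p ∈ gidx m, ∫ z in gsq α β L m p, (v z - gavg α β L m v p) ^ 2 ≤
      2 * (L / m) ^ 2 * ∫ z in gsq α β L m p, ‖gr v z‖ ^ 2 := by
    intro p hp
    simp only [gidx, Finset.mem_product, Finset.mem_range] at hp
    have a1 := cell_sub (α := α) hL hm hp.1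
    have a2 := cell_sub (α := β) hL hm hp.2
    apply poincare hh hD hv
    intro z g1 g2 g3 g4
    exact hsub z (a1.1.trans g1) (g2.trans a1.2) (a2.1.trans g3) (g4.trans a2.2)
  refine (Finset.sum_le_sum h1).trans ?_
  rw [← Finset.mul_sum]
  have hK : IsCompact (Set.Icc α (α + L) ×ℂ Set.Icc β (β + L)) := isCompact_Icc.reProdIm isCompact_Icc
  have hKD : (Set.Icc α (α + L) ×ℂ Set.Icc β (β + L)) ⊆ D := by
    intro z hz
    rw [Complex.mem_reProdIm] at hz
    exact hsub z hz.1.1 hz.1.2 hz.2.1 hz.2.2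
  have hfd : ContinuousOn (fderiv ℝ v) D := hv.continuousOn_fderiv_of_isOpen hD le_rfl
  have hgr : ContinuousOn (fun z => ‖gr v z‖ ^ 2) D := by
    have e : (fun z => ‖gr v z‖ ^ 2) = fun z => dx v z ^ 2 + dy v z ^ 2 := by
      funext z
      rw [Complex.sq_norm, Complex.normSq_apply]
      simp only [gr]
      ring
    rw [e]
    have e1 : ContinuousOn (fun z => dx v z) D := hfd.clm_apply continuousOn_const
    have e2 : ContinuousOn (fun z => dy v z) D := hfd.clm_apply continuousOn_const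
    exact (e1.pow 2).add (e2.pow 2)
  have hint : IntegrableOn (fun z => ‖gr v z‖ ^ 2) (Set.Icc α (α + L) ×ℂ Set.Icc β (β + L)) volume :=
    (hgr.mono hKD).integrableOn_compact hK
  have hsubK : sqh α β L ⊆ (Set.Icc α (α + L) ×ℂ Set.Icc β (β + L)) := by
    rintro z ⟨g1, g2, g3, g4⟩
    rw [Complex.mem_reProdIm]
    exact ⟨⟨g1, g2.le⟩, g3, g4.le⟩
  have hsub2 : ∀ p ∈ gidx m, gsq α β L m p ⊆ sqh α β L := by
    intro p hp
    rw [grid_cover hL hm]
    exact Set.subset_biUnion_of_mem (u := fun p => gsq α β L m p) hp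
  have hcov := grid_cover (α := α) (β := β) hL hm
  have hsum : ∫ z in sqh α β L, ‖gr v z‖ ^ 2 = ∑ p ∈ gidx m, ∫ z in gsq α β L m p, ‖gr v z‖ ^ 2 := by
    conv_lhs => rw [hcov]
    apply integral_biUnion_finset
    · intro p _
      exact measurableSet_sqh _ _ _
    · intro p _ q _ hpq
      exact grid_disj hL hm hpq
    · intro p hp
      exact hint.mono_set ((hsub2 p hp).trans hsubK)
  rw [hsum]

end SOB
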