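import Pool.Agent.Helper57.SOB.Abs

/-!
# SOB-09 The gradient is determined by the function

TO PROVE (in place).  The set of `U` with `inner U t = 0` is closed and contains all jets of the class, so it contains `HJ A J`
(`mem_HJ_iff`, continuity of the inner product).  If `U.fst = 0` then `inner U t = inner U.fst t.fst + inner U.snd t.snd = inner U.snd t.snd`
(`WithLp.prod_inner_apply`), so `U.snd = 0` by `h2`, and `U = 0`.
-/

set_option autoImplicit false

namespace SOB

open MeasureTheory Filter Topology
open Pool.Agent.Helper53.CL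

variable {Ω : Type*} [MeasurableSpace Ω] {A : Measure Ω} {J : (Ω → ℝ) → (Ω → ℂ) → Prop}

theorem inj_of (h : JClass A J) (T : Set (JetSp A))
    (h1 : ∀ t ∈ T, ∀ (U : JetSp A) (v : Ω → ℝ) (g : Ω → ℂ), J v g → IsJet U v g → inner ℝ U t = 0)
    (h2 : ∀ g : Lp ℂ 2 A, (∀ t ∈ T, inner ℝ g t.snd = 0) → g = 0) :
    ∀ U ∈ HJ A J, U.fst = 0 → U = 0 := by
  intro U hU hU0
  have key : ∀ t ∈ T, inner ℝ U t = 0 := by
    intro t ht
    have hcl : IsClosed {W : JetSp A | inner ℝ W t = 0} :=
      isClosed_eq (continuous_id.inner continuous_const) continuous_const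
    have hsub : (Submodule.span ℝ {U : JetSp A | ∃ v g, J v g ∧ IsJet U v g} : Set (JetSp A)) ⊆
        {W : JetSp A | inner ℝ W t = 0} := by
      intro W hW
      induction hW using Submodule.span_induction with
      | mem x hx =>
        obtain ⟨v, g, hv, hj⟩ := hx
        exact h1 t ht x v g hv hj
      | zero => exact inner_zero_left _
      | add x y _ _ hx hy =>
        have hx' : inner ℝ x t = 0 := hx
        have hy' : inner ℝ y t = 0 := hy
        show inner ℝ (x + y) t = 0
        rw [inner_add_left, hx', hy', add_zero]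
      | smul a x _ hx =>
        have hx' : inner ℝ x t = 0 := hx
        show inner ℝ (a • x) t = 0
        rw [real_inner_smul_left, hx', mul_zero]
    have h3 := closure_minimal hsub hcl
    exact h3 hU
  have hs : U.snd = 0 := by
    apply h2
    intro t ht
    have h3 := key t ht
    rw [WithLp.prod_inner_apply] at h3
    have h4 : U.ofLp.1 = 0 := hU0
    rw [h4, inner_zero_left, zero_add] at h3
    exact h3
  have h4 : U = WithLp.toLp 2 (U.fst, U.snd) := rfl
  rw [h4, hU0, hs]
  rfl

end SOB
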