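import Pool.Agent.Helper57.SOB.Inj
import Pool.Agent.Helper57.SOB.IBP

/-!
# SOB-10 The class of pairs of the unit square, injectivity

TO PROVE (in place).

* `jclassQ`: a function of class `C^1` and its gradient are continuous, hence bounded on the compact set `Qs`, a set of finite measure
  (`MemLp.of_bound` with the bound almost everywhere, `ae_restrict`); `gr` is additive, `gr (c • v) = c • gr v`,
  `gr (k ∘ v) = k'(v) gr v` (chain rule in the directions `1`, `I`).
* `injQ`: `inj_of` with `T` the set of all `t` for which there is a smooth `φ` with compact support in the open square `D` such that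
  `IsJet t (dx φ) φ` or `IsJet t (dy φ) (I φ)` (all bounded).  `h1`: by `inner_jet`, `inner U t = ∫_Q (v dx φ + dx v φ)`, resp.
  `∫_Q (v dy φ + dy v φ)`, equal to the integrals over `ℂ` because `φ` and its derivatives vanish off `Qs`; use `ibp` with the open
  set `univ`.  `h2`: `g` is orthogonal to all `φ` and `I φ`, so `∫ φ re g = ∫ φ im g = 0`, `g = 0` almost everywhere on `D` by
  `eq_zero_of_test` (`g` is integrable on `Qs`, hence locally integrable on `D`), and `Qs \ D` is a null set.
-/

set_option autoImplicit false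

namespace SOB

open MeasureTheory Filter Topology
open Pool.Agent.Helper53.CL

private lemma gr_eq_of {f : ℂ → ℝ} {z : ℂ} {L : ℂ →L[ℝ] ℝ} (h : HasFDerivAt f L z) :
    gr f z = ⟨L 1, L Complex.I⟩ := by
  unfold gr dx dy
  rw [h.fderiv]

private lemma gr_add_at {f g : ℂ → ℝ} {z : ℂ} (hf : DifferentiableAt ℝ f z)
    (hg : DifferentiableAt ℝ g z) : gr (f + g) z = gr f z + gr g z := by
  rw [gr_eq_of (hf.hasFDerivAt.add hg.hasFDerivAt)]
  apply Complex.ext
  · simp [gr, dx]
  · simp [gr, dy]

private lemma gr_smul_at {f : ℂ → ℝ} {z : ℂ} (c : ℝ) (hf : DifferentiableAt ℝ f z) :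
    gr (c • f) z = c • gr f z := by
  rw [gr_eq_of (hf.hasFDerivAt.const_smul c)]
  apply Complex.ext
  · simp [gr, dx]
  · simp [gr, dy]

private lemma gr_comp_at {f : ℂ → ℝ} {k : ℝ → ℝ} {z : ℂ} (hk : DifferentiableAt ℝ k (f z))
    (hf : DifferentiableAt ℝ f z) :
    gr (fun x => k (f x)) z = ((deriv k (f z) : ℝ) : ℂ) * gr f z := by
  have h : HasFDerivAt (fun x => k (f x)) (deriv k (f z) • fderiv ℝ f z) z :=
    hk.hasDerivAt.comp_hasFDerivAt z hf.hasFDerivAt
  rw [gr_eq_of h]
  apply Complex.ext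
  · simp [gr, dx]
  · simp [gr, dy]

private lemma continuous_dx {v : ℂ → ℝ} (hv : ContDiff ℝ 1 v) : Continuous (dx v) :=
  (hv.continuous_fderiv one_ne_zero).clm_apply continuous_const

private lemma continuous_dy {v : ℂ → ℝ} (hv : ContDiff ℝ 1 v) : Continuous (dy v) :=
  (hv.continuous_fderiv one_ne_zero).clm_apply continuous_const

private lemma continuous_gr {v : ℂ → ℝ} (hv : ContDiff ℝ 1 v) : Continuous (gr v) := by
  have h : gr v = fun z => ((dx v z : ℝ) : ℂ) + ((dy v z : ℝ) : ℂ) * Complex.I := by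
    funext z
    apply Complex.ext <;> simp [gr]
  rw [h]
  exact (Complex.continuous_ofReal.comp (continuous_dx hv)).add
    ((Complex.continuous_ofReal.comp (continuous_dy hv)).mul continuous_const)

private lemma isCompact_Qs : IsCompact Qs := by
  refine Metric.isCompact_of_isClosed_isBounded ?_ ?_
  · have h : Qs = {z : ℂ | 0 ≤ z.re} ∩ ({z | z.re ≤ 1} ∩ ({z | 0 ≤ z.im} ∩ {z | z.im ≤ 1})) := rfl
    rw [h]
    exact (isClosed_le continuous_const Complex.continuous_re).inter
      ((isClosed_le Complex.continuous_re continuous_const).inter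
        ((isClosed_le continuous_const Complex.continuous_im).inter
          (isClosed_le Complex.continuous_im continuous_const)))
  · refine (Metric.isBounded_closedBall (x := (0 : ℂ)) (r := 2)).subset ?_
    rintro z ⟨h1, h2, h3, h4⟩
    rw [mem_closedBall_zero_iff]
    refine (Complex.norm_le_abs_re_add_abs_im z).trans ?_
    rw [abs_of_nonneg h1, abs_of_nonneg h3]
    linarith

private lemma convex_Qs : Convex ℝ Qs := by
  rintro x ⟨h1, h2, h3, h4⟩ y ⟨k1, k2, k3, k4⟩ a b ha hb hab
  refine ⟨?_, ?_, ?_, ?_⟩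
  all_goals simp only [Complex.add_re, Complex.add_im, Complex.real_smul, Complex.mul_re,
    Complex.mul_im, Complex.ofReal_re, Complex.ofReal_im, zero_mul, sub_zero, add_zero]
  · positivity
  · nlinarith
  · positivity
  · nlinarith

private lemma mQ_fin : IsFiniteMeasure mQ := by
  refine ⟨?_⟩
  unfold mQ
  rw [Measure.restrict_apply_univ]
  exact isCompact_Qs.measure_lt_top

private lemma memLp_of_cont {F : Type*} [NormedAddCommGroup F] {f : ℂ → F} (hf : Continuous f)
    [SecondCountableTopologyEither ℂ F] : MemLp f 2 mQ := by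
  have := mQ_fin
  obtain ⟨C, hC⟩ := isCompact_Qs.exists_bound_of_continuousOn hf.continuousOn
  refine MemLp.of_bound hf.aestronglyMeasurable C ?_
  unfold mQ
  exact ae_restrict_of_forall_mem isCompact_Qs.measurableSet hC

theorem jclassQ : JClass mQ JQ := by
  refine ⟨?_, ?_, ?_, ?_, ?_⟩
  · rintro v g ⟨hv, rfl⟩
    exact ⟨memLp_of_cont hv.continuous, memLp_of_cont (continuous_gr hv)⟩
  · refine ⟨contDiff_const, ?_⟩
    funext z
    rw [gr_eq_of (hasFDerivAt_const (1 : ℝ) z)]
    apply Complex.ext <;> simp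
  · rintro v g v' g' ⟨hv, rfl⟩ ⟨hv', rfl⟩
    refine ⟨hv.add hv', ?_⟩
    funext z
    rw [gr_add_at (hv.differentiable one_ne_zero z) (hv'.differentiable one_ne_zero z)]
    rfl
  · rintro c v g ⟨hv, rfl⟩
    refine ⟨hv.const_smul c, ?_⟩
    funext z
    rw [gr_smul_at c (hv.differentiable one_ne_zero z)]
    rfl
  · rintro k hk v g ⟨hv, rfl⟩
    refine ⟨hk.comp hv, ?_⟩
    funext z
    rw [gr_comp_at (hk.differentiable one_ne_zero _) (hv.differentiable one_ne_zero z)]

private lemma dx_off {φ : ℂ → ℝ} {z : ℂ} (hz : z ∉ tsupport φ) : dx φ z = 0 := by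
  unfold dx
  rw [fderiv_of_notMem_tsupport ℝ hz]
  rfl

private lemma dy_off {φ : ℂ → ℝ} {z : ℂ} (hz : z ∉ tsupport φ) : dy φ z = 0 := by
  unfold dy
  rw [fderiv_of_notMem_tsupport ℝ hz]
  rfl

private lemma int_mQ {f : ℂ → ℝ} {φ : ℂ → ℝ} (hs : tsupport φ ⊆ interior Qs)
    (hf : ∀ z, z ∉ tsupport φ → f z = 0) : ∫ z, f z ∂mQ = ∫ z, f z := by
  unfold mQ
  refine setIntegral_eq_integral_of_forall_compl_eq_zero fun z hz => hf z fun h => ?_
  exact hz (interior_subset (hs h))

open scoped ContDiff in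
theorem injQ : ∀ U ∈ HJ mQ JQ, U.fst = 0 → U = 0 := by
  have hfin := mQ_fin
  refine inj_of jclassQ {t | ∃ φ : ℂ → ℝ, ContDiff ℝ ∞ φ ∧ HasCompactSupport φ ∧
    tsupport φ ⊆ interior Qs ∧ (IsJet t (dx φ) (fun z => (φ z : ℂ)) ∨
      IsJet t (dy φ) (fun z => (φ z : ℂ) * Complex.I))} ?_ ?_
  · rintro t ⟨φ, hφ, hc, hs, ht⟩ U v g ⟨hv, rfl⟩ hU
    have hib := ibp isOpen_univ (contDiffOn_univ.2 hv) hφ hc (Set.subset_univ _)
    have hoff : ∀ z, z ∉ tsupport φ → φ z = 0 := fun z hz => image_eq_zero_of_notMem_tsupport hz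
    rcases ht with ht | ht
    · rw [inner_jet hU ht, int_mQ hs (fun z hz => by rw [dx_off hz, mul_zero]), hib.1]
      have h1 : ∀ z, inner ℝ (gr v z) (φ z : ℂ) = dx v z * φ z := by
        intro z
        rw [Complex.inner]
        simp [gr]
        ring
      simp only [h1]
      rw [int_mQ hs (fun z hz => by rw [hoff z hz, mul_zero])]
      ring
    · rw [inner_jet hU ht, int_mQ hs (fun z hz => by rw [dy_off hz, mul_zero]), hib.2]
      have h1 : ∀ z, inner ℝ (gr v z) ((φ z : ℂ) * Complex.I) = dy v z * φ z := by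
        intro z
        rw [Complex.inner]
        simp [gr]
        ring
      simp only [h1]
      rw [int_mQ hs (fun z hz => by rw [hoff z hz, mul_zero])]
      ring
  · intro g hg
    have hgi : IntegrableOn g Qs := (Lp.memLp g).integrable one_le_two
    have hloc : LocallyIntegrableOn g (interior Qs) :=
      (hgi.mono_set interior_subset).locallyIntegrableOn
    have key : ∀ (φ : ℂ → ℝ), ContDiff ℝ ∞ φ → HasCompactSupport φ → tsupport φ ⊆ interior Qs →
        (∫ z, φ z * (g z).re = 0) ∧ ∫ z, φ z * (g z).im = 0 := by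
      intro φ hφ hc hs
      have hφ1 : ContDiff ℝ 1 φ := hφ.of_le (by exact_mod_cast le_top)
      have hoff : ∀ z, z ∉ tsupport φ → φ z = 0 := fun z hz => image_eq_zero_of_notMem_tsupport hz
      have m1 : MemLp (dx φ) 2 mQ := memLp_of_cont (continuous_dx hφ1)
      have m2 : MemLp (dy φ) 2 mQ := memLp_of_cont (continuous_dy hφ1)
      have m3 : MemLp (fun z => (φ z : ℂ)) 2 mQ :=
        memLp_of_cont (Complex.continuous_ofReal.comp hφ.continuous)
      have m4 : MemLp (fun z => (φ z : ℂ) * Complex.I) 2 mQ :=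
        memLp_of_cont ((Complex.continuous_ofReal.comp hφ.continuous).mul continuous_const)
      constructor
      · have h1 := hg (WithLp.toLp 2 (m1.toLp _, m3.toLp _))
          ⟨φ, hφ, hc, hs, Or.inl ⟨m1.coeFn_toLp, m3.coeFn_toLp⟩⟩
        rw [L2.inner_def] at h1
        have h2 : ∫ z, inner ℝ (g z) ((m3.toLp _ : Lp ℂ 2 mQ) z) ∂mQ = ∫ z, φ z * (g z).re ∂mQ := by
          refine integral_congr_ae ?_
          filter_upwards [m3.coeFn_toLp] with z hz
          rw [hz, Complex.inner]
          simp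
        have h3 : ∫ z, φ z * (g z).re ∂mQ = ∫ z, φ z * (g z).re :=
          int_mQ hs (fun z hz => by rw [hoff z hz, zero_mul])
        rw [← h3, ← h2]
        exact h1
      · have h1 := hg (WithLp.toLp 2 (m2.toLp _, m4.toLp _))
          ⟨φ, hφ, hc, hs, Or.inr ⟨m2.coeFn_toLp, m4.coeFn_toLp⟩⟩
        rw [L2.inner_def] at h1
        have h2 : ∫ z, inner ℝ (g z) ((m4.toLp _ : Lp ℂ 2 mQ) z) ∂mQ = ∫ z, φ z * (g z).im ∂mQ := by
          refine integral_congr_ae ?_
          filter_upwards [m4.coeFn_toLp] with z hz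
          rw [hz, Complex.inner]
          simp
        have h3 : ∫ z, φ z * (g z).im ∂mQ = ∫ z, φ z * (g z).im :=
          int_mQ hs (fun z hz => by rw [hoff z hz, zero_mul])
        rw [← h3, ← h2]
        exact h1
    have h0 := eq_zero_of_test isOpen_interior hloc key
    have hnull : volume (frontier Qs) = 0 := convex_Qs.addHaar_frontier volume
    rw [Lp.eq_zero_iff_ae_eq_zero]
    unfold mQ
    rw [Filter.EventuallyEq, ae_restrict_iff' isCompact_Qs.measurableSet]
    have h1 : ∀ᵐ z, z ∉ frontier Qs := measure_eq_zero_iff_ae_notMem.1 hnull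
    filter_upwards [h0, h1] with z hz1 hz2 hzQ
    refine hz1 ?_
    by_contra hcon
    exact hz2 ⟨subset_closure hzQ, hcon⟩

end SOB
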