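import Pool.Agent.Helper57.SOB.SClass
import Pool.Agent.Helper57.SOB.Inj
import Pool.Agent.Helper57.SOB.IBP

/-!
# SOB-13 Injectivity for surfaces

TO PROVE (in place).  `O` from `exists_open`; `W i = φ i '' O i`, open in `ℂ`, contained in `ball 0 1`.  `T` is the set of all `t` for which there are
`i` and a smooth `φ` with compact support in `W i` such that, with `x ∈ O i`, `z = C.φ i x` (and `0` off `O i`),
`t = (dx φ z / ρ i z, φ z / √(ρ i z))` or `t = (dy φ z / ρ i z, I φ z / √(ρ i z))` (bounded measurable functions, since `ρ i` is bounded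
below on the compact `closedBall 0 1`).

* `h1`: by `inner_jet` and `H.integral_chart` (the integrands vanish off `O i ⊆ source`), with `w = v ∘ (φ i).symm`:
  `inner U t = ∫_{W i} (w dx φ + dx w φ)`, because `C.grad v x = gr w z / √(ρ i z)` on `O i` (definition, `C.idx x = i`) and the measure is
  `ρ i dz`; the integrand vanishes off `tsupport φ`; so it is the integral over `ℂ`, zero by `ibp` with `D = ball 0 3`.
* `h2`: for `g` orthogonal to all `t.snd`: `∫ φ z √(ρ i z) re g((φ i).symm z) dz = 0` over `W i`, the same for `im g`; by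
  `eq_zero_of_test` on `W i` (with `f z = √(ρ i z) g((φ i).symm z)` on `W i`, locally integrable by `H.integrable_chart` and because `ρ i` is
  bounded above and below on compact subsets), `g ∘ (φ i).symm = 0` almost everywhere on `W i`, hence `g = 0` almost everywhere on `O i` (`area_eq` or
  `H.area_map`), for all `i`, and the complement of the union of the `O i` is a null set.
-/

set_option autoImplicit false

namespace SOB

open MeasureTheory Filter Topology Metric
open scoped ContDiff
open Pool.Agent.Helper53.CL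

private theorem memLp_ext {S : Type*} [TopologicalSpace S] [MeasurableSpace S] [BorelSpace S]
    {E : Type*} [NormedAddCommGroup E] (C : CSurf S) {i : Fin C.n} {O : Set S} (hO : IsOpen O)
    (hOs : O ⊆ (C.φ i).source) (hOb : ∀ x ∈ O, C.φ i x ∈ ball (0 : ℂ) 1) {k : ℂ → E}
    (hk : ContinuousOn k (ball 0 3)) :
    MemLp (O.indicator (fun x => k (C.φ i x))) 2 C.area := by
  have hfin := H.area_finite C
  have hsc := H.secondCountable C
  have hc : ContinuousOn (fun x => k (C.φ i x)) O := by
    refine hk.comp ((C.φ i).continuousOn.mono hOs) ?_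
    intro x hx
    exact ball_subset_ball (by norm_num) (hOb x hx)
  obtain ⟨B, hB⟩ := (isCompact_closedBall (0 : ℂ) 1).exists_bound_of_continuousOn
    (hk.mono (closedBall_subset_ball (by norm_num)))
  have hB0 : 0 ≤ B := (norm_nonneg _).trans (hB 0 (mem_closedBall_self (by norm_num)))
  refine MemLp.of_bound ?_ B (ae_of_all _ fun x => ?_)
  · rw [aestronglyMeasurable_indicator_iff hO.measurableSet]
    exact hc.aestronglyMeasurable hO.measurableSet
  · by_cases hx : x ∈ O
    · rw [Set.indicator_of_mem hx]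
      exact hB _ (ball_subset_closedBall (hOb x hx))
    · rw [Set.indicator_of_notMem hx, norm_zero]
      exact hB0

private theorem int_ext {S : Type*} [TopologicalSpace S] [MeasurableSpace S] [BorelSpace S]
    (C : CSurf S) (i : Fin C.n) {F : S → ℝ} {G : ℂ → ℝ} (h1 : ∀ x ∉ (C.φ i).source, F x = 0)
    (h2 : ∀ z ∈ ball (0 : ℂ) 3, C.ρ i z * F ((C.φ i).symm z) = G z)
    (h3 : ∀ z ∉ ball (0 : ℂ) 3, G z = 0) : ∫ x, F x ∂C.area = ∫ z, G z := by
  rw [← setIntegral_eq_integral_of_forall_compl_eq_zero h1, H.integral_chart,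
    ← setIntegral_eq_integral_of_forall_compl_eq_zero h3]
  exact setIntegral_congr_fun measurableSet_ball fun z hz => h2 z hz

private theorem d_zero {φ : ℂ → ℝ} {z : ℂ} (h : z ∉ tsupport φ) :
    φ z = 0 ∧ dx φ z = 0 ∧ dy φ z = 0 := by
  have h1 : fderiv ℝ φ z = 0 := by
    by_contra h2
    exact h (support_fderiv_subset ℝ h2)
  refine ⟨image_eq_zero_of_notMem_tsupport h, ?_, ?_⟩
  · unfold dx
    rw [h1]
    rfl
  · unfold dy
    rw [h1]
    rfl

/-- the test pair for the direction `δ` -/
private noncomputable def tA {S : Type*} [TopologicalSpace S] [MeasurableSpace S] (C : CSurf S)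
    (i : Fin C.n) (O : Set S) (δ : ℂ) (φ : ℂ → ℝ) : S → ℝ :=
  O.indicator (fun x => (fun z => fderiv ℝ φ z δ / C.ρ i z) (C.φ i x))

private noncomputable def tB {S : Type*} [TopologicalSpace S] [MeasurableSpace S] (C : CSurf S)
    (i : Fin C.n) (O : Set S) (δ : ℂ) (φ : ℂ → ℝ) : S → ℂ :=
  O.indicator (fun x => (fun z => ((φ z / √(C.ρ i z) : ℝ) : ℂ) * δ) (C.φ i x))

private theorem gr_inner (v : ℂ → ℝ) (z : ℂ) (r s : ℝ) :
    inner ℝ (gr v z / ((s : ℝ) : ℂ)) (((r : ℝ) : ℂ) * 1) = r * dx v z / s ∧
    inner ℝ (gr v z / ((s : ℝ) : ℂ)) (((r : ℝ) : ℂ) * Complex.I) = r * dy v z / s := by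
  constructor
  · rw [Complex.inner, mul_one, Complex.re_ofReal_mul, Complex.conj_re,
      Complex.div_ofReal_re]
    unfold gr
    ring
  · rw [Complex.inner, mul_assoc, Complex.re_ofReal_mul, Complex.mul_re, Complex.conj_re,
      Complex.conj_im, Complex.I_re, Complex.I_im, Complex.div_ofReal_re, Complex.div_ofReal_im]
    unfold gr
    ring

private theorem c_inner (c : ℂ) (r : ℝ) :
    inner ℝ c (((r : ℝ) : ℂ) * 1) = r * c.re ∧ inner ℝ c (((r : ℝ) : ℂ) * Complex.I) = r * c.im := by
  constructor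
  · rw [Complex.inner, mul_one, Complex.re_ofReal_mul, Complex.conj_re]
  · rw [Complex.inner, mul_assoc, Complex.re_ofReal_mul, Complex.mul_re, Complex.conj_re,
      Complex.conj_im, Complex.I_re, Complex.I_im]
    ring

theorem injS {S : Type*} [TopologicalSpace S] [MeasurableSpace S] [BorelSpace S] [CompactSpace S] [T2Space S]
    (C : CSurf S) : ∀ U ∈ HJ C.area (JS C), U.fst = 0 → U = 0 := by
  classical
  obtain ⟨O, hO, hOs, hOi, hOn⟩ := exists_open C
  have hfin := H.area_finite C
  have htar : ∀ i, (C.φ i).target = ball 0 3 := C.target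
  obtain ⟨W, hW⟩ : ∃ W : Fin C.n → Set ℂ, W = fun i => C.φ i '' O i := ⟨_, rfl⟩
  have hWo : ∀ i, IsOpen (W i) := by
    intro i
    rw [hW]
    exact (C.φ i).isOpen_image_of_subset_source (hO i) (hOs i)
  have hW3 : ∀ i, W i ⊆ ball (0 : ℂ) 3 := by
    intro i
    rw [hW]
    rintro _ ⟨x, hx, rfl⟩
    exact ball_subset_ball (by norm_num) (hOi i x hx).2
  have hWO : ∀ i, ∀ z ∈ ball (0 : ℂ) 3, (C.φ i).symm z ∈ O i ↔ z ∈ W i := by
    intro i z hz
    rw [hW]
    constructor
    · intro h
      refine ⟨(C.φ i).symm z, h, (C.φ i).right_inv ?_⟩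
      rw [htar]
      exact hz
    · rintro ⟨x, hx, rfl⟩
      rw [(C.φ i).left_inv (hOs i hx)]
      exact hx
  have hρc : ∀ i, ContinuousOn (C.ρ i) (ball 0 3) := fun i => (C.ρ_smooth i).continuousOn
  have hρp : ∀ i, ∀ z ∈ ball (0 : ℂ) 3, 0 < C.ρ i z := C.ρ_pos
  -- the test pairs are square integrable
  have hA2 : ∀ (i : Fin C.n) (δ : ℂ) (φ : ℂ → ℝ), ContDiff ℝ ∞ φ →
      MemLp (tA C i (O i) δ φ) 2 C.area := by
    intro i δ φ hφ
    refine memLp_ext C (k := fun z => fderiv ℝ φ z δ / C.ρ i z) (hO i) (hOs i)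
      (fun x hx => (hOi i x hx).2) ?_
    have h1 : Continuous (fun z => fderiv ℝ φ z δ) :=
      (hφ.continuous_fderiv (by simp)).clm_apply continuous_const
    exact h1.continuousOn.div (hρc i) fun z hz => (hρp i z hz).ne'
  have hB2 : ∀ (i : Fin C.n) (δ : ℂ) (φ : ℂ → ℝ), ContDiff ℝ ∞ φ →
      MemLp (tB C i (O i) δ φ) 2 C.area := by
    intro i δ φ hφ
    refine memLp_ext C (k := fun z => ((φ z / √(C.ρ i z) : ℝ) : ℂ) * δ) (hO i) (hOs i)
      (fun x hx => (hOi i x hx).2) ?_
    have h1 : ContinuousOn (fun z => φ z / √(C.ρ i z)) (ball 0 3) :=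
      hφ.continuous.continuousOn.div (hρc i).sqrt
        fun z hz => (Real.sqrt_pos.2 (hρp i z hz)).ne'
    exact (Complex.continuous_ofReal.comp_continuousOn h1).mul continuousOn_const
  have hex : ∀ (i : Fin C.n) (δ : ℂ) (φ : ℂ → ℝ), ContDiff ℝ ∞ φ →
      ∃ t : JetSp C.area, IsJet t (tA C i (O i) δ φ) (tB C i (O i) δ φ) := by
    intro i δ φ hφ
    refine ⟨WithLp.toLp 2 ((hA2 i δ φ hφ).toLp _, (hB2 i δ φ hφ).toLp _), ?_, ?_⟩
    · exact (hA2 i δ φ hφ).coeFn_toLp
    · exact (hB2 i δ φ hφ).coeFn_toLp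
  refine inj_of (jclassS C) {t | ∃ (i : Fin C.n) (φ : ℂ → ℝ) (δ : ℂ), (δ = 1 ∨ δ = Complex.I) ∧
    ContDiff ℝ ∞ φ ∧ HasCompactSupport φ ∧ tsupport φ ⊆ W i ∧
    IsJet t (tA C i (O i) δ φ) (tB C i (O i) δ φ)} ?_ ?_
  · rintro t ⟨i, φ, δ, hδ, hφ, hφc, hφs, ht⟩ U v g ⟨hv, hg⟩ hU
    rw [inner_jet hU ht]
    have hzero : ∀ z, z ∉ W i → φ z = 0 ∧ dx φ z = 0 ∧ dy φ z = 0 := fun z hz =>
      d_zero fun h => hz (hφs h)
    have hvD : ContDiffOn ℝ 1 (v ∘ (C.φ i).symm) (ball 0 3) := hv i
    obtain ⟨hib1, hib2⟩ := ibp isOpen_ball hvD hφ hφc (hφs.trans (hW3 i))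
    have hgx : ∀ z ∈ W i, g ((C.φ i).symm z) =
        gr (v ∘ (C.φ i).symm) z / ((√(C.ρ i z) : ℝ) : ℂ) := by
      intro z hz
      have hz3 := hW3 i hz
      have hzO := (hWO i z hz3).2 hz
      rw [hg]
      unfold CSurf.grad
      rw [(hOi i _ hzO).1, (C.φ i).right_inv (by rw [htar]; exact hz3)]
    have htAz : ∀ z ∈ ball (0 : ℂ) 3, tA C i (O i) δ φ ((C.φ i).symm z) =
        if z ∈ W i then fderiv ℝ φ z δ / C.ρ i z else 0 := by
      intro z hz
      unfold tA
      by_cases hzW : z ∈ W i
      · rw [if_pos hzW, Set.indicator_of_mem ((hWO i z hz).2 hzW),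
          (C.φ i).right_inv (by rw [htar]; exact hz)]
      · rw [if_neg hzW, Set.indicator_of_notMem fun h => hzW ((hWO i z hz).1 h)]
    have htBz : ∀ z ∈ ball (0 : ℂ) 3, tB C i (O i) δ φ ((C.φ i).symm z) =
        if z ∈ W i then ((φ z / √(C.ρ i z) : ℝ) : ℂ) * δ else 0 := by
      intro z hz
      unfold tB
      by_cases hzW : z ∈ W i
      · rw [if_pos hzW, Set.indicator_of_mem ((hWO i z hz).2 hzW),
          (C.φ i).right_inv (by rw [htar]; exact hz)]
      · rw [if_neg hzW, Set.indicator_of_notMem fun h => hzW ((hWO i z hz).1 h)]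
    have hoffA : ∀ x ∉ (C.φ i).source, tA C i (O i) δ φ x = 0 := fun x hx =>
      Set.indicator_of_notMem (fun h => hx (hOs i h)) _
    have hoffB : ∀ x ∉ (C.φ i).source, tB C i (O i) δ φ x = 0 := fun x hx =>
      Set.indicator_of_notMem (fun h => hx (hOs i h)) _
    rcases hδ with hδ | hδ
    · subst hδ
      have e1 : ∫ x, v x * tA C i (O i) 1 φ x ∂C.area =
          ∫ z, (v ∘ (C.φ i).symm) z * dx φ z := by
        refine int_ext C i (fun x hx => by rw [hoffA x hx, mul_zero]) ?_ ?_
        · intro z hz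
          rw [htAz z hz]
          by_cases hzW : z ∈ W i
          · rw [if_pos hzW]
            have := (hρp i z hz).ne'
            unfold dx
            simp only [Function.comp_apply]
            field_simp
          · rw [if_neg hzW, (hzero z hzW).2.1, mul_zero, mul_zero, mul_zero]
        · intro z hz
          rw [(hzero z fun h => hz (hW3 i h)).2.1, mul_zero]
      have e2 : ∫ x, inner ℝ (g x) (tB C i (O i) 1 φ x) ∂C.area =
          ∫ z, dx (v ∘ (C.φ i).symm) z * φ z := by
        refine int_ext C i (fun x hx => by rw [hoffB x hx, inner_zero_right]) ?_ ?_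
        · intro z hz
          rw [htBz z hz]
          by_cases hzW : z ∈ W i
          · rw [if_pos hzW, hgx z hzW, (gr_inner _ z _ _).1]
            have h5 := hρp i z hz
            have h6 : √(C.ρ i z) * √(C.ρ i z) = C.ρ i z := Real.mul_self_sqrt h5.le
            have h7 : 0 < √(C.ρ i z) := Real.sqrt_pos.2 h5
            nth_rewrite 1 [← h6]
            field_simp
          · rw [if_neg hzW, (hzero z hzW).1, inner_zero_right, mul_zero, mul_zero]
        · intro z hz
          rw [(hzero z fun h => hz (hW3 i h)).1, mul_zero]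
      rw [e1, e2, hib1]
      ring
    · subst hδ
      have e1 : ∫ x, v x * tA C i (O i) Complex.I φ x ∂C.area =
          ∫ z, (v ∘ (C.φ i).symm) z * dy φ z := by
        refine int_ext C i (fun x hx => by rw [hoffA x hx, mul_zero]) ?_ ?_
        · intro z hz
          rw [htAz z hz]
          by_cases hzW : z ∈ W i
          · rw [if_pos hzW]
            have := (hρp i z hz).ne'
            unfold dy
            simp only [Function.comp_apply]
            field_simp
          · rw [if_neg hzW, (hzero z hzW).2.2, mul_zero, mul_zero, mul_zero]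
        · intro z hz
          rw [(hzero z fun h => hz (hW3 i h)).2.2, mul_zero]
      have e2 : ∫ x, inner ℝ (g x) (tB C i (O i) Complex.I φ x) ∂C.area =
          ∫ z, dy (v ∘ (C.φ i).symm) z * φ z := by
        refine int_ext C i (fun x hx => by rw [hoffB x hx, inner_zero_right]) ?_ ?_
        · intro z hz
          rw [htBz z hz]
          by_cases hzW : z ∈ W i
          · rw [if_pos hzW, hgx z hzW, (gr_inner _ z _ _).2]
            have h5 := hρp i z hz
            have h6 : √(C.ρ i z) * √(C.ρ i z) = C.ρ i z := Real.mul_self_sqrt h5.le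
            have h7 : 0 < √(C.ρ i z) := Real.sqrt_pos.2 h5
            nth_rewrite 1 [← h6]
            field_simp
          · rw [if_neg hzW, (hzero z hzW).1, inner_zero_right, mul_zero, mul_zero]
        · intro z hz
          rw [(hzero z fun h => hz (hW3 i h)).1, mul_zero]
      rw [e1, e2, hib2]
      ring
  · intro g hg
    obtain ⟨f, hf⟩ : ∃ f : Fin C.n → ℂ → ℂ, f = fun i z =>
        (√(C.ρ i z))⁻¹ • (C.ρ i z • g ((C.φ i).symm z)) := ⟨_, rfl⟩
    have hfre : ∀ i z, z ∈ ball (0 : ℂ) 3 → f i z = ((√(C.ρ i z) : ℝ) : ℂ) *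
        g ((C.φ i).symm z) := by
      intro i z hz
      have h5 := hρp i z hz
      have h6 : √(C.ρ i z) * √(C.ρ i z) = C.ρ i z := Real.mul_self_sqrt h5.le
      have h7 : 0 < √(C.ρ i z) := Real.sqrt_pos.2 h5
      rw [hf]
      simp only
      rw [smul_smul, ← Complex.real_smul]
      congr 1
      nth_rewrite 2 [← h6]
      field_simp
    have hloc : ∀ i, LocallyIntegrableOn (f i) (W i) := by
      intro i
      have h1 : Integrable g C.area := (Lp.memLp g).integrable (by norm_num)
      have h2 : IntegrableOn g (C.φ i).source C.area := h1.integrableOn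
      have h3 := (H.integrable_chart C i g).1 h2
      have h4 : LocallyIntegrableOn (fun z => C.ρ i z • g ((C.φ i).symm z)) (W i) :=
        (h3.mono_set (hW3 i)).locallyIntegrableOn
      rw [hf]
      refine LocallyIntegrableOn.continuousOn_smul (hWo i).isLocallyClosed h4 ?_
      exact (((hρc i).mono (hW3 i)).sqrt).inv₀ fun z hz =>
        (Real.sqrt_pos.2 (hρp i z (hW3 i hz))).ne'
    have hkey : ∀ i, ∀ᵐ z, z ∈ W i → f i z = 0 := by
      intro i
      refine eq_zero_of_test (hWo i) (hloc i) ?_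
      intro φ hφ hφc hφs
      have hzero : ∀ z, z ∉ W i → φ z = 0 := fun z hz => (d_zero fun h => hz (hφs h)).1
      have hmain : ∀ δ : ℂ, (δ = 1 ∨ δ = Complex.I) →
          ∫ x, inner ℝ (g x) (tB C i (O i) δ φ x) ∂C.area = 0 := by
        intro δ hδ
        obtain ⟨t, ht⟩ := hex i δ φ hφ
        have h1 := hg t ⟨i, φ, δ, hδ, hφ, hφc, hφs, ht⟩
        rw [L2.inner_def] at h1
        rw [← h1]
        refine integral_congr_ae ?_
        filter_upwards [ht.2] with x hx
        rw [hx]
      have htBz : ∀ δ : ℂ, ∀ z ∈ ball (0 : ℂ) 3, tB C i (O i) δ φ ((C.φ i).symm z) =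
          if z ∈ W i then ((φ z / √(C.ρ i z) : ℝ) : ℂ) * δ else 0 := by
        intro δ z hz
        unfold tB
        by_cases hzW : z ∈ W i
        · rw [if_pos hzW, Set.indicator_of_mem ((hWO i z hz).2 hzW),
            (C.φ i).right_inv (by rw [htar]; exact hz)]
        · rw [if_neg hzW, Set.indicator_of_notMem fun h => hzW ((hWO i z hz).1 h)]
      have hoffB : ∀ δ : ℂ, ∀ x ∉ (C.φ i).source, tB C i (O i) δ φ x = 0 := fun δ x hx =>
        Set.indicator_of_notMem (fun h => hx (hOs i h)) _
      constructor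
      · rw [← hmain 1 (Or.inl rfl)]
        symm
        refine int_ext C i (fun x hx => by rw [hoffB 1 x hx, inner_zero_right]) ?_ ?_
        · intro z hz
          rw [htBz 1 z hz]
          by_cases hzW : z ∈ W i
          · have h5 := hρp i z hz
            have h6 : √(C.ρ i z) * √(C.ρ i z) = C.ρ i z := Real.mul_self_sqrt h5.le
            have h7 : 0 < √(C.ρ i z) := Real.sqrt_pos.2 h5
            rw [if_pos hzW, (c_inner _ _).1, hfre i z hz, Complex.re_ofReal_mul]
            nth_rewrite 1 [← h6]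
            field_simp
          · rw [if_neg hzW, hzero z hzW, inner_zero_right, mul_zero, zero_mul]
        · intro z hz
          rw [hzero z fun h => hz (hW3 i h), zero_mul]
      · rw [← hmain Complex.I (Or.inr rfl)]
        symm
        refine int_ext C i (fun x hx => by rw [hoffB Complex.I x hx, inner_zero_right]) ?_ ?_
        · intro z hz
          rw [htBz Complex.I z hz]
          by_cases hzW : z ∈ W i
          · have h5 := hρp i z hz
            have h6 : √(C.ρ i z) * √(C.ρ i z) = C.ρ i z := Real.mul_self_sqrt h5.le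
            have h7 : 0 < √(C.ρ i z) := Real.sqrt_pos.2 h5
            rw [if_pos hzW, (c_inner _ _).2, hfre i z hz, Complex.im_ofReal_mul]
            nth_rewrite 1 [← h6]
            field_simp
          · rw [if_neg hzW, hzero z hzW, inner_zero_right, mul_zero, zero_mul]
        · intro z hz
          rw [hzero z fun h => hz (hW3 i h), zero_mul]
    have hgO : ∀ i, ∀ᵐ x ∂C.area, x ∈ (C.φ i).source → x ∈ O i → g x = 0 := by
      intro i
      have h1 : ∀ᵐ z ∂((volume.restrict (ball (0 : ℂ) 3)).withDensity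
          (fun z => ENNReal.ofReal (C.ρ i z))), z ∈ W i → f i z = 0 :=
        (withDensity_absolutelyContinuous _ _).ae_le (ae_restrict_of_ae (hkey i))
      rw [← H.area_map C i] at h1
      have haem : AEMeasurable (C.φ i) (C.area.restrict (C.φ i).source) :=
        (C.φ i).continuousOn.aemeasurable (C.φ i).open_source.measurableSet
      have h2 := ae_of_ae_map haem h1
      rw [ae_restrict_iff' (C.φ i).open_source.measurableSet] at h2
      filter_upwards [h2] with x hx hxs hxO
      have hxW : C.φ i x ∈ W i := by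
        rw [hW]
        exact ⟨x, hxO, rfl⟩
      have h3 := hx hxs hxW
      rw [hfre i _ (hW3 i hxW), (C.φ i).left_inv hxs] at h3
      rcases mul_eq_zero.1 h3 with h4 | h4
      · have h5 := Real.sqrt_pos.2 (hρp i _ (hW3 i hxW))
        exact absurd (Complex.ofReal_eq_zero.1 h4) h5.ne'
      · exact h4
    have hnull : ∀ᵐ x ∂C.area, x ∈ ⋃ i, O i := by
      rw [ae_iff]
      exact hOn
    refine (Lp.eq_zero_iff_ae_eq_zero).2 ?_
    filter_upwards [ae_all_iff.2 hgO, hnull] with x hx hxO
    obtain ⟨i, hi⟩ := Set.mem_iUnion.1 hxO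
    exact hx i (hOs i hi) hi

end SOB
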