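import Pool.Agent.Helper57.SOB.Defs

/-!
# SOB-04 The Poincaré inequality on a square

TO PROVE (in place).  Let `K` be the closed square, contained in the open set `D`; `v` and its derivatives are bounded and continuous on `K`; `sqh a b h`
is `K` up to a null set (or work with `sqh` directly).  For `x, x' ∈ [a, a+h]`, `y, y' ∈ [b, b+h]`:
`(v(x,y) - v(x',y'))² ≤ 2 (v(x,y) - v(x',y))² + 2 (v(x',y) - v(x',y'))² ≤ 2 h ∫_a^{a+h} v_x(s,y)² ds + 2 h ∫_b^{b+h} v_y(x',t)² dt`
(fundamental theorem of calculus and Cauchy-Schwarz).  For fixed `(x,y)` take the mean value over `(x',y')`; by Cauchy-Schwarz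
(`(v - avg)² = (h⁻² ∬ (v(x,y) - v(x',y')))² ≤ h⁻² ∬ (..)²`):
`(v(x,y) - avg)² ≤ 2 h ∫ v_x(s,y)² ds + 2 ∬ v_y²`.
Integrate over `(x,y)`: `∬ (v - avg)² ≤ 2 h² ∬ v_x² + 2 h² ∬ v_y² = 2 h² ∬ ‖gr v‖²`.
(`Complex.volume_preserving_equiv_real_prod` transforms the integrals over subsets of `ℂ` into integrals over `ℝ × ℝ`.)
-/

set_option autoImplicit false

namespace SOB

open MeasureTheory Filter Topology Set
open scoped ContDiff Manifold
open Pool.Agent.Helper53.CL

private theorem cs_int {f : ℝ → ℝ} (hf : Continuous f) {s t : ℝ} (hst : s ≤ t) :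
    (∫ x in s..t, f x) ^ 2 ≤ (t - s) * ∫ x in s..t, f x ^ 2 := by
  rcases hst.eq_or_lt with h | h
  · subst h
    simp
  obtain ⟨I, hI⟩ : ∃ I : ℝ, I = ∫ x in s..t, f x := ⟨_, rfl⟩
  obtain ⟨J, hJ⟩ : ∃ J : ℝ, J = ∫ x in s..t, f x ^ 2 := ⟨_, rfl⟩
  have h1 : 0 ≤ ∫ x in s..t, ((t - s) * f x - I) ^ 2 :=
    intervalIntegral.integral_nonneg hst fun x _ => sq_nonneg _
  have h2 : ∫ x in s..t, ((t - s) * f x - I) ^ 2 =
      (t - s) ^ 2 * J - 2 * (t - s) * I * I + (t - s) * I ^ 2 := by
    have h3 : ∀ x, ((t - s) * f x - I) ^ 2 =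
        (t - s) ^ 2 * f x ^ 2 - 2 * (t - s) * I * f x + I ^ 2 := fun x => by ring
    simp_rw [h3]
    rw [intervalIntegral.integral_add, intervalIntegral.integral_sub,
      intervalIntegral.integral_const_mul, intervalIntegral.integral_const_mul,
      intervalIntegral.integral_const, ← hI, ← hJ, smul_eq_mul]
    all_goals exact Continuous.intervalIntegrable (by fun_prop) _ _
  rw [← hI, ← hJ]
  have h4 : 0 < t - s := sub_pos.2 h
  rw [h2] at h1
  have h5 : 0 ≤ (t - s) * ((t - s) * J - I ^ 2) := by linarith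
  have h6 := nonneg_of_mul_nonneg_right h5 h4
  linarith

private theorem ftc_sq {f f' : ℝ → ℝ} (hf : ∀ x, HasDerivAt f (f' x) x) (hc : Continuous f')
    {a h : ℝ} {x x' : ℝ} (hx : x ∈ Icc a (a + h)) (hx' : x' ∈ Icc a (a + h)) :
    (f x - f x') ^ 2 ≤ h * ∫ s in a..(a + h), f' s ^ 2 := by
  have key : ∀ x x' : ℝ, x ∈ Icc a (a + h) → x' ∈ Icc a (a + h) → x' ≤ x →
      (f x - f x') ^ 2 ≤ h * ∫ s in a..(a + h), f' s ^ 2 := by
    intro x x' hx hx' hle
    rw [← intervalIntegral.integral_eq_sub_of_hasDerivAt (fun y _ => hf y)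
      (hc.intervalIntegrable _ _)]
    refine (cs_int hc hle).trans ?_
    have h1 : ∫ s in x'..x, f' s ^ 2 ≤ ∫ s in a..(a + h), f' s ^ 2 :=
      intervalIntegral.integral_mono_interval hx'.1 hle hx.2
        (ae_of_all _ fun s => sq_nonneg _) ((hc.pow 2).intervalIntegrable _ _)
    have h2 : 0 ≤ ∫ s in x'..x, f' s ^ 2 :=
      intervalIntegral.integral_nonneg hle fun s _ => sq_nonneg _
    have h3 : x - x' ≤ h := by linarith [hx.2, hx'.1]
    exact mul_le_mul h3 h1 h2 (by linarith)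
  rcases le_total x' x with h1 | h1
  · exact key x x' hx hx' h1
  · have h2 := key x' x hx' hx h1
    have e : (f x - f x') ^ 2 = (f x' - f x) ^ 2 := by ring
    rw [e]
    exact h2

private theorem sq_int {F : ℂ → ℝ} (hF : Continuous F) (a b : ℝ) {h : ℝ} (hh : 0 < h) :
    ∫ z in sqh a b h, F z =
      ∫ x in a..(a + h), ∫ y in b..(b + h), F ((x : ℂ) + (y : ℂ) * Complex.I) := by
  have h1 : sqh a b h = Complex.measurableEquivRealProd ⁻¹' (Ico a (a + h) ×ˢ Ico b (b + h)) := by
    ext z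
    constructor
    · rintro ⟨h1, h2, h3, h4⟩
      exact ⟨⟨h1, h2⟩, ⟨h3, h4⟩⟩
    · rintro ⟨⟨h1, h2⟩, ⟨h3, h4⟩⟩
      exact ⟨h1, h2, h3, h4⟩
  have h2 := Complex.volume_preserving_equiv_real_prod.setIntegral_preimage_emb
    Complex.measurableEquivRealProd.measurableEmbedding
    (fun p : ℝ × ℝ => F ((p.1 : ℂ) + (p.2 : ℂ) * Complex.I)) (Ico a (a + h) ×ˢ Ico b (b + h))
  rw [← h1] at h2
  have h3 : ∀ z : ℂ, F (((Complex.measurableEquivRealProd z).1 : ℂ) +
      ((Complex.measurableEquivRealProd z).2 : ℂ) * Complex.I) = F z := by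
    intro z
    congr 1
    exact Complex.re_add_im z
  simp only [h3] at h2
  rw [h2, Measure.volume_eq_prod, setIntegral_prod]
  · rw [integral_Ico_eq_integral_Ioo, ← integral_Ioc_eq_integral_Ioo,
      intervalIntegral.integral_of_le (by linarith)]
    refine setIntegral_congr_fun measurableSet_Ioc fun x _ => ?_
    simp only
    rw [integral_Ico_eq_integral_Ioo, ← integral_Ioc_eq_integral_Ioo,
      intervalIntegral.integral_of_le (by linarith)]
  · have h4 : Continuous (fun p : ℝ × ℝ => F ((p.1 : ℂ) + (p.2 : ℂ) * Complex.I)) :=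
      hF.comp (by fun_prop)
    exact (h4.continuousOn.integrableOn_compact (isCompact_Icc.prod isCompact_Icc)).mono_set
      (Set.prod_mono Ico_subset_Icc_self Ico_subset_Icc_self)

private theorem swap_int {F : ℝ → ℝ → ℝ} (hF : Continuous (Function.uncurry F)) {a a' b b' : ℝ}
    (ha : a ≤ a') (hb : b ≤ b') :
    ∫ x in a..a', ∫ y in b..b', F x y = ∫ y in b..b', ∫ x in a..a', F x y := by
  simp only [intervalIntegral.integral_of_le ha, intervalIntegral.integral_of_le hb]
  refine integral_integral_swap ?_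
  rw [Measure.prod_restrict]
  exact (hF.continuousOn.integrableOn_compact (isCompact_Icc.prod isCompact_Icc)).mono_set
    (Set.prod_mono Ioc_subset_Icc_self Ioc_subset_Icc_self)

private theorem poincare_glob {a b h : ℝ} (hh : 0 < h) {v : ℂ → ℝ} (hv : ContDiff ℝ 1 v) :
    ∫ z in sqh a b h, (v z - avg a b h v) ^ 2 ≤ 2 * h ^ 2 * ∫ z in sqh a b h, ‖gr v z‖ ^ 2 := by
  have hvc : Continuous v := hv.continuous
  have hfd : Continuous (fderiv ℝ v) := hv.continuous_fderiv (by simp)
  have hdx : Continuous (dx v) := hfd.clm_apply continuous_const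
  have hdy : Continuous (dy v) := hfd.clm_apply continuous_const
  have hd : Differentiable ℝ v := hv.differentiable (by simp)
  have had : a ≤ a + h := by linarith
  have hbd : b ≤ b + h := by linarith
  have hx : ∀ x y : ℝ, HasDerivAt (fun x : ℝ => v ((x : ℂ) + (y : ℂ) * Complex.I))
      (dx v ((x : ℂ) + (y : ℂ) * Complex.I)) x := by
    intro x y
    have h1 : HasDerivAt (fun x : ℝ => (x : ℂ) + (y : ℂ) * Complex.I) 1 x :=
      ((hasDerivAt_id x).ofReal_comp).add_const _
    exact (hd _).hasFDerivAt.comp_hasDerivAt x h1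
  have hy : ∀ x y : ℝ, HasDerivAt (fun y : ℝ => v ((x : ℂ) + (y : ℂ) * Complex.I))
      (dy v ((x : ℂ) + (y : ℂ) * Complex.I)) y := by
    intro x y
    have h1 : HasDerivAt (fun y : ℝ => (x : ℂ) + (y : ℂ) * Complex.I) Complex.I y := by
      have h2 := (((hasDerivAt_id y).ofReal_comp).mul_const Complex.I).const_add (x : ℂ)
      simpa using h2
    exact (hd _).hasFDerivAt.comp_hasDerivAt y h1
  obtain ⟨A, hA⟩ : ∃ A : ℝ → ℝ, A = fun y : ℝ => ∫ s in a..(a + h),
    dx v ((s : ℂ) + (y : ℂ) * Complex.I) ^ 2 := ⟨_, rfl⟩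
  obtain ⟨B, hB⟩ : ∃ B : ℝ → ℝ, B = fun x : ℝ => ∫ t in b..(b + h),
    dy v ((x : ℂ) + (t : ℂ) * Complex.I) ^ 2 := ⟨_, rfl⟩
  have hAc : Continuous A := by
    rw [hA]
    refine intervalIntegral.continuous_parametric_intervalIntegral_of_continuous' ?_ _ _
    exact (hdx.comp (by fun_prop)).pow 2
  have hBc : Continuous B := by
    rw [hB]
    refine intervalIntegral.continuous_parametric_intervalIntegral_of_continuous' ?_ _ _
    exact (hdy.comp (by fun_prop)).pow 2
  -- the pointwise bound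
  have hpt : ∀ x ∈ Icc a (a + h), ∀ y ∈ Icc b (b + h), ∀ x' ∈ Icc a (a + h),
      ∀ y' ∈ Icc b (b + h), (v ((x : ℂ) + (y : ℂ) * Complex.I) -
        v ((x' : ℂ) + (y' : ℂ) * Complex.I)) ^ 2 ≤ 2 * h * A y + 2 * h * B x' := by
    intro x hx1 y hy1 x' hx2 y' hy2
    have h1 := ftc_sq (fun s => hx s y) (f' := fun s => dx v ((s : ℂ) + (y : ℂ) * Complex.I))
      (hdx.comp (by fun_prop)) hx1 hx2
    have h2 := ftc_sq (fun t => hy x' t) (f' := fun t => dy v ((x' : ℂ) + (t : ℂ) * Complex.I))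
      (hdy.comp (by fun_prop)) hy1 hy2
    have h3 : A y = ∫ s in a..(a + h), dx v ((s : ℂ) + (y : ℂ) * Complex.I) ^ 2 := by rw [hA]
    have h4 : B x' = ∫ t in b..(b + h), dy v ((x' : ℂ) + (t : ℂ) * Complex.I) ^ 2 := by rw [hB]
    rw [h3, h4]
    nlinarith [sq_nonneg ((v ((x : ℂ) + (y : ℂ) * Complex.I) -
      v ((x' : ℂ) + (y : ℂ) * Complex.I)) - (v ((x' : ℂ) + (y : ℂ) * Complex.I) -
      v ((x' : ℂ) + (y' : ℂ) * Complex.I)))]
  obtain ⟨m, hm⟩ : ∃ m : ℝ, m = avg a b h v := ⟨_, rfl⟩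
  have hm2 : h ^ 2 * m = ∫ x in a..(a + h), ∫ y in b..(b + h),
      v ((x : ℂ) + (y : ℂ) * Complex.I) := by
    rw [hm, avg, sq_int hvc a b hh, mul_inv_cancel_left₀ (by positivity)]
  obtain ⟨β, hβ⟩ : ∃ β : ℝ, β = ∫ x in a..(a + h), B x := ⟨_, rfl⟩
  obtain ⟨α, hα⟩ : ∃ α : ℝ, α = ∫ y in b..(b + h), A y := ⟨_, rfl⟩
  have hmain : ∀ x ∈ Icc a (a + h), ∀ y ∈ Icc b (b + h),
      (v ((x : ℂ) + (y : ℂ) * Complex.I) - m) ^ 2 ≤ 2 * h * A y + 2 * β := by
    intro x hx1 y hy1
    obtain ⟨c, hc⟩ : ∃ c : ℝ, c = v ((x : ℂ) + (y : ℂ) * Complex.I) := ⟨_, rfl⟩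
    rw [← hc]
    have hcont : Continuous (Function.uncurry fun x' y' : ℝ =>
        c - v ((x' : ℂ) + (y' : ℂ) * Complex.I)) :=
      continuous_const.sub (hvc.comp (by fun_prop))
    have hcont2 : Continuous (Function.uncurry fun x' y' : ℝ =>
        (c - v ((x' : ℂ) + (y' : ℂ) * Complex.I)) ^ 2) := hcont.pow 2
    have hin : ∀ x' : ℝ, Continuous (fun y' : ℝ => c - v ((x' : ℂ) + (y' : ℂ) * Complex.I)) :=
      fun x' => continuous_const.sub (hvc.comp (by fun_prop))
    have hin2 : Continuous fun x' : ℝ => ∫ y' in b..(b + h),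
        (c - v ((x' : ℂ) + (y' : ℂ) * Complex.I)) :=
      intervalIntegral.continuous_parametric_intervalIntegral_of_continuous' hcont _ _
    have hin3 : Continuous fun x' : ℝ => ∫ y' in b..(b + h),
        (c - v ((x' : ℂ) + (y' : ℂ) * Complex.I)) ^ 2 :=
      intervalIntegral.continuous_parametric_intervalIntegral_of_continuous' hcont2 _ _
    have hcont4 : Continuous (Function.uncurry fun x' y' : ℝ =>
        v ((x' : ℂ) + (y' : ℂ) * Complex.I)) := hvc.comp (by fun_prop)
    have hin4 : Continuous fun x' : ℝ => ∫ y' in b..(b + h),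
        v ((x' : ℂ) + (y' : ℂ) * Complex.I) :=
      intervalIntegral.continuous_parametric_intervalIntegral_of_continuous' hcont4 _ _
    have e1 : h ^ 2 * (c - m) = ∫ x' in a..(a + h), ∫ y' in b..(b + h),
        (c - v ((x' : ℂ) + (y' : ℂ) * Complex.I)) := by
      have e2 : ∀ x' : ℝ, ∫ y' in b..(b + h), (c - v ((x' : ℂ) + (y' : ℂ) * Complex.I)) =
          h * c - ∫ y' in b..(b + h), v ((x' : ℂ) + (y' : ℂ) * Complex.I) := by
        intro x'
        have i1 : IntervalIntegrable (fun y' : ℝ => v ((x' : ℂ) + (y' : ℂ) * Complex.I))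
            volume b (b + h) := by
          refine Continuous.intervalIntegrable ?_ _ _
          exact hvc.comp (by fun_prop)
        rw [intervalIntegral.integral_sub intervalIntegrable_const i1,
          intervalIntegral.integral_const, smul_eq_mul, add_sub_cancel_left]
      simp_rw [e2]
      rw [intervalIntegral.integral_sub intervalIntegrable_const
        (hin4.intervalIntegrable _ _), intervalIntegral.integral_const, smul_eq_mul,
        add_sub_cancel_left, ← hm2]
      ring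
    have e3 : (h ^ 2 * (c - m)) ^ 2 ≤ h * ∫ x' in a..(a + h), (h * ∫ y' in b..(b + h),
        (c - v ((x' : ℂ) + (y' : ℂ) * Complex.I)) ^ 2) := by
      rw [e1]
      have e4 := cs_int hin2 had
      rw [add_sub_cancel_left] at e4
      refine e4.trans (mul_le_mul_of_nonneg_left ?_ hh.le)
      refine intervalIntegral.integral_mono_on had ((hin2.pow 2).intervalIntegrable _ _)
        ((continuous_const.mul hin3).intervalIntegrable _ _) ?_
      intro x' _
      have e5 := cs_int (hin x') hbd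
      rw [add_sub_cancel_left] at e5
      exact e5
    have e6 : ∫ x' in a..(a + h), (h * ∫ y' in b..(b + h),
        (c - v ((x' : ℂ) + (y' : ℂ) * Complex.I)) ^ 2) ≤
        ∫ x' in a..(a + h), (h * (h * (2 * h * A y + 2 * h * B x'))) := by
      refine intervalIntegral.integral_mono_on had
        ((continuous_const.mul hin3).intervalIntegrable _ _)
        (Continuous.intervalIntegrable (by fun_prop) _ _) ?_
      intro x' hx'
      refine mul_le_mul_of_nonneg_left ?_ hh.le
      have e7 : ∫ y' in b..(b + h), (c - v ((x' : ℂ) + (y' : ℂ) * Complex.I)) ^ 2 ≤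
          ∫ _y' in b..(b + h), (2 * h * A y + 2 * h * B x') := by
        refine intervalIntegral.integral_mono_on hbd (((hin x').pow 2).intervalIntegrable _ _)
          intervalIntegrable_const ?_
        intro y' hy'
        rw [hc]
        exact hpt x hx1 y hy1 x' hx' y' hy'
      rw [intervalIntegral.integral_const, smul_eq_mul, add_sub_cancel_left] at e7
      exact e7
    have e8 : ∫ x' in a..(a + h), (h * (h * (2 * h * A y + 2 * h * B x'))) =
        2 * h ^ 4 * A y + 2 * h ^ 3 * β := by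
      have e9 : ∀ x', h * (h * (2 * h * A y + 2 * h * B x')) =
          2 * h ^ 3 * A y + 2 * h ^ 3 * B x' := fun x' => by ring
      have i2 : IntervalIntegrable (fun x' : ℝ => 2 * h ^ 3 * B x') volume a (a + h) :=
        Continuous.intervalIntegrable (by fun_prop) _ _
      simp_rw [e9]
      rw [intervalIntegral.integral_add intervalIntegrable_const i2,
        intervalIntegral.integral_const,
        intervalIntegral.integral_const_mul, smul_eq_mul, add_sub_cancel_left, ← hβ]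
      ring
    rw [e8] at e6
    have e10 : (h ^ 2 * (c - m)) ^ 2 ≤ h * (2 * h ^ 4 * A y + 2 * h ^ 3 * β) :=
      e3.trans (mul_le_mul_of_nonneg_left e6 hh.le)
    have e11 : h ^ 4 * (c - m) ^ 2 ≤ h ^ 4 * (2 * h * A y + 2 * β) := by
      have e12 : (h ^ 2 * (c - m)) ^ 2 = h ^ 4 * (c - m) ^ 2 := by ring
      have e13 : h * (2 * h ^ 4 * A y + 2 * h ^ 3 * β) = h ^ 4 * (2 * h * A y + 2 * β) := by ring
      rw [← e12, ← e13]
      exact e10
    exact le_of_mul_le_mul_left e11 (by positivity)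
  have hL : ∫ z in sqh a b h, (v z - avg a b h v) ^ 2 = ∫ x in a..(a + h), ∫ y in b..(b + h),
      (v ((x : ℂ) + (y : ℂ) * Complex.I) - m) ^ 2 := by
    rw [← hm]
    exact sq_int (F := fun z => (v z - m) ^ 2) ((hvc.sub continuous_const).pow 2) a b hh
  have hgr : ∀ z, ‖gr v z‖ ^ 2 = dx v z ^ 2 + dy v z ^ 2 := by
    intro z
    rw [← Complex.normSq_eq_norm_sq, Complex.normSq_apply]
    unfold gr
    ring
  have hR : ∫ z in sqh a b h, ‖gr v z‖ ^ 2 = α + β := by
    simp_rw [hgr]
    rw [sq_int (F := fun z => dx v z ^ 2 + dy v z ^ 2) ((hdx.pow 2).add (hdy.pow 2)) a b hh]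
    have c1 : Continuous (Function.uncurry fun x y : ℝ =>
        dx v ((x : ℂ) + (y : ℂ) * Complex.I) ^ 2) := (hdx.comp (by fun_prop)).pow 2
    have c2 : Continuous (Function.uncurry fun x y : ℝ =>
        dy v ((x : ℂ) + (y : ℂ) * Complex.I) ^ 2) := (hdy.comp (by fun_prop)).pow 2
    have e1 : ∀ x : ℝ, ∫ y in b..(b + h), (dx v ((x : ℂ) + (y : ℂ) * Complex.I) ^ 2 +
        dy v ((x : ℂ) + (y : ℂ) * Complex.I) ^ 2) =
        (∫ y in b..(b + h), dx v ((x : ℂ) + (y : ℂ) * Complex.I) ^ 2) +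
        ∫ y in b..(b + h), dy v ((x : ℂ) + (y : ℂ) * Complex.I) ^ 2 := by
      intro x
      refine intervalIntegral.integral_add ?_ ?_
      · exact Continuous.intervalIntegrable ((hdx.comp (by fun_prop)).pow 2) _ _
      · exact Continuous.intervalIntegrable ((hdy.comp (by fun_prop)).pow 2) _ _
    simp_rw [e1]
    rw [intervalIntegral.integral_add
      ((intervalIntegral.continuous_parametric_intervalIntegral_of_continuous' c1 _
        _).intervalIntegrable _ _)
      ((intervalIntegral.continuous_parametric_intervalIntegral_of_continuous' c2 _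
        _).intervalIntegrable _ _), swap_int c1 had hbd, hα, hβ, hA, hB]
  rw [hL, hR]
  have hle1 : ∫ x in a..(a + h), ∫ y in b..(b + h),
      (v ((x : ℂ) + (y : ℂ) * Complex.I) - m) ^ 2 ≤
      ∫ _x in a..(a + h), (2 * h * α + 2 * h * β) := by
    have c3 : Continuous (Function.uncurry fun x y : ℝ =>
        (v ((x : ℂ) + (y : ℂ) * Complex.I) - m) ^ 2) :=
      ((hvc.comp (by fun_prop)).sub continuous_const).pow 2
    refine intervalIntegral.integral_mono_on had
      ((intervalIntegral.continuous_parametric_intervalIntegral_of_continuous' c3 _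
        _).intervalIntegrable _ _) intervalIntegrable_const ?_
    intro x hx1
    have e1 : ∫ y in b..(b + h), (v ((x : ℂ) + (y : ℂ) * Complex.I) - m) ^ 2 ≤
        ∫ y in b..(b + h), (2 * h * A y + 2 * β) := by
      refine intervalIntegral.integral_mono_on hbd ?_ ?_ ?_
      · exact Continuous.intervalIntegrable
          (((hvc.comp (by fun_prop)).sub continuous_const).pow 2) _ _
      · exact Continuous.intervalIntegrable (by fun_prop) _ _
      · intro y hy1
        exact hmain x hx1 y hy1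
    refine e1.trans (le_of_eq ?_)
    have i3 : IntervalIntegrable (fun y : ℝ => 2 * h * A y) volume b (b + h) :=
      Continuous.intervalIntegrable (by fun_prop) _ _
    rw [intervalIntegral.integral_add i3
      intervalIntegrable_const, intervalIntegral.integral_const_mul,
      intervalIntegral.integral_const, smul_eq_mul, add_sub_cancel_left, ← hα]
    ring
  refine hle1.trans (le_of_eq ?_)
  rw [intervalIntegral.integral_const, smul_eq_mul, add_sub_cancel_left]
  ring

theorem poincare {a b h : ℝ} (hh : 0 < h) {v : ℂ → ℝ} {D : Set ℂ} (hD : IsOpen D) (hv : ContDiffOn ℝ 1 v D)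
    (hsub : ∀ z : ℂ, a ≤ z.re → z.re ≤ a + h → b ≤ z.im → z.im ≤ b + h → z ∈ D) :
    ∫ z in sqh a b h, (v z - avg a b h v) ^ 2 ≤ 2 * h ^ 2 * ∫ z in sqh a b h, ‖gr v z‖ ^ 2 := by
  obtain ⟨K, hK⟩ : ∃ K : Set ℂ, K = Icc a (a + h) ×ℂ Icc b (b + h) := ⟨_, rfl⟩
  have hKc : IsCompact K := by
    rw [hK]
    exact isCompact_Icc.reProdIm isCompact_Icc
  have hKD : K ⊆ D := by
    rw [hK]
    rintro z ⟨h1, h2⟩
    exact hsub z h1.1 h1.2 h2.1 h2.2
  have hsK : ∀ z ∈ sqh a b h, z ∈ K := by
    rintro z ⟨h1, h2, h3, h4⟩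
    rw [hK]
    exact ⟨⟨h1, h2.le⟩, ⟨h3, h4.le⟩⟩
  obtain ⟨L, hLc, hKL, hLD⟩ := exists_compact_between hKc hD hKD
  obtain ⟨χ, hχ1, hχ0, -⟩ := exists_contMDiffMap_one_nhds_of_subset_interior
    (n := ⊤) 𝓘(ℝ, ℂ) hKc.isClosed hKL
  have hχs : ContDiff ℝ ∞ (χ : ℂ → ℝ) := χ.contMDiff.contDiff
  obtain ⟨w, hw⟩ : ∃ w : ℂ → ℝ, w = fun z => χ z * v z := ⟨_, rfl⟩
  have hws : ContDiff ℝ 1 w := by
    rw [contDiff_iff_contDiffAt]
    intro z
    by_cases hz : z ∈ D
    · rw [hw]
      exact (hχs.of_le (by exact_mod_cast le_top)).contDiffAt.mul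
        (hv.contDiffAt (hD.mem_nhds hz))
    · have h1 : z ∈ Lᶜ := fun h2 => hz (hLD h2)
      have h2 : w =ᶠ[𝓝 z] fun _ => 0 := by
        filter_upwards [hLc.isClosed.isOpen_compl.mem_nhds h1] with y hy
        rw [hw]
        simp only
        rw [hχ0 y hy, zero_mul]
      exact contDiffAt_const.congr_of_eventuallyEq h2
  have hev : ∀ z ∈ K, w =ᶠ[𝓝 z] v := by
    intro z hz
    have h1 := (eventually_nhdsSet_iff_forall.1 hχ1) z hz
    filter_upwards [h1] with y hy
    rw [hw]
    simp only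
    rw [hy, one_mul]
  have hms : MeasurableSet (sqh a b h) := by
    have h1 : sqh a b h = Complex.measurableEquivRealProd ⁻¹'
        (Ico a (a + h) ×ˢ Ico b (b + h)) := by
      ext z
      constructor
      · rintro ⟨h1, h2, h3, h4⟩
        exact ⟨⟨h1, h2⟩, ⟨h3, h4⟩⟩
      · rintro ⟨⟨h1, h2⟩, ⟨h3, h4⟩⟩
        exact ⟨h1, h2, h3, h4⟩
    rw [h1]
    exact Complex.measurableEquivRealProd.measurable (measurableSet_Ico.prod measurableSet_Ico)
  have havg : avg a b h v = avg a b h w := by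
    unfold avg
    congr 1
    exact setIntegral_congr_fun hms fun z hz => ((hev z (hsK z hz)).eq_of_nhds).symm
  have h1 : ∫ z in sqh a b h, (v z - avg a b h v) ^ 2 =
      ∫ z in sqh a b h, (w z - avg a b h w) ^ 2 := by
    rw [havg]
    refine setIntegral_congr_fun hms fun z hz => ?_
    rw [(hev z (hsK z hz)).eq_of_nhds]
  have h2 : ∫ z in sqh a b h, ‖gr v z‖ ^ 2 = ∫ z in sqh a b h, ‖gr w z‖ ^ 2 := by
    refine setIntegral_congr_fun hms fun z hz => ?_
    unfold gr dx dy
    rw [(hev z (hsK z hz)).fderiv_eq]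
  rw [h1, h2]
  exact poincare_glob hh hws

end SOB
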