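import Pool.Agent.Helper57.SOB.Grid
import Pool.Agent.Helper53.CL.H.H02

/-!
# SOB-14 The grid estimate in a chart of a surface

TO PROVE (in place).  Let `w = v ∘ (C.φ i).symm`, of class `C^1` on `ball 0 3`; the closed square `|re z|, |im z| ≤ 1` is a compact subset of the ball.
Let `K` be an upper bound of `ρ i` on it.  By `H.integral_chart` (applied to the indicator functions of the sets),
`∫_{x ∈ source, φ x ∈ gsq} (v x - s)² dA = ∫_{gsq} ρ i (w - s)² dz ≤ K ∫_{gsq} (w - s)²`, so by `grid_est` (`α = β = -1`, `L = 2`) the sum is at most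
`2 K (2/m)² ∫_{sqh (-1) (-1) 2} ‖gr w‖² dz`, and `∫_{sqh} ‖gr w‖² dz = ∫_{x ∈ source, φ x ∈ sqh} ‖C.grad v x‖² dA ≤ ∫ ‖C.grad v‖² dA` by
`H.norm_grad` and `H.integral_chart`.  So the constant is `8 K` (independent of `v` and `m`).
-/

set_option autoImplicit false

namespace SOB

open MeasureTheory Filter Topology Metric
open Pool.Agent.Helper53.CL

variable {S : Type*} [TopologicalSpace S] [MeasurableSpace S] [BorelSpace S]

theorem meas_src_inter (C : CSurf S) (i : Fin C.n) {B : Set ℂ} (hB : MeasurableSet B) :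
    MeasurableSet ((C.φ i).source ∩ C.φ i ⁻¹' B) := by
  have h1 : (C.φ i).source ∩ C.φ i ⁻¹' B =
      Subtype.val '' ((fun x : (C.φ i).source => C.φ i x) ⁻¹' B) := by
    ext x
    simp only [Set.mem_inter_iff, Set.mem_preimage, Set.mem_image, Subtype.exists,
      exists_and_right, exists_eq_right]
    exact ⟨fun h => ⟨h.1, h.2⟩, fun h => ⟨h.1, h.2⟩⟩
  rw [h1]
  refine (C.φ i).open_source.measurableSet.subtype_image ?_
  exact (continuousOn_iff_continuous_domRestrict.1 (C.φ i).continuousOn).measurable hB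

theorem integral_src_inter (C : CSurf S) (i : Fin C.n) {B : Set ℂ} (hB : MeasurableSet B)
    (hB3 : B ⊆ ball 0 3) (f : S → ℝ) :
    ∫ x in (C.φ i).source ∩ C.φ i ⁻¹' B, f x ∂C.area =
      ∫ z in B, C.ρ i z * f ((C.φ i).symm z) := by
  obtain ⟨N, hN⟩ : ∃ N, N = (C.φ i).source ∩ C.φ i ⁻¹' B := ⟨_, rfl⟩
  have hNm : MeasurableSet N := by rw [hN]; exact meas_src_inter C i hB
  have hNs : (C.φ i).source ∩ N = N := by
    rw [hN]
    exact Set.inter_eq_right.2 Set.inter_subset_left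
  rw [← hN]
  have h1 : ∫ x in N, f x ∂C.area = ∫ x in (C.φ i).source, N.indicator f x ∂C.area := by
    rw [setIntegral_indicator hNm, hNs]
  rw [h1, Pool.Agent.Helper53.CL.H.integral_chart C i]
  have h2 : ∫ z in ball (0 : ℂ) 3, C.ρ i z • N.indicator f ((C.φ i).symm z) =
      ∫ z in ball (0 : ℂ) 3, B.indicator (fun z => C.ρ i z * f ((C.φ i).symm z)) z := by
    refine setIntegral_congr_fun measurableSet_ball fun z hz => ?_
    have hzt : z ∈ (C.φ i).target := by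
      rw [C.target]
      exact hz
    have hmem : (C.φ i).symm z ∈ N ↔ z ∈ B := by
      rw [hN, Set.mem_inter_iff, Set.mem_preimage, (C.φ i).right_inv hzt]
      exact ⟨fun h => h.2, fun h => ⟨(C.φ i).map_target hzt, h⟩⟩
    by_cases hzB : z ∈ B
    · simp only [Set.indicator_of_mem hzB, Set.indicator_of_mem (hmem.2 hzB), smul_eq_mul]
    · simp only [Set.indicator_of_notMem hzB, Set.indicator_of_notMem (fun h => hzB (hmem.1 h)),
        smul_zero]
  rw [h2, setIntegral_indicator hB, Set.inter_eq_right.2 hB3]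

private lemma sq_sub : {z : ℂ | -1 ≤ z.re ∧ z.re ≤ 1 ∧ -1 ≤ z.im ∧ z.im ≤ 1} ⊆ ball 0 3 := by
  rintro z ⟨h1, h2, h3, h4⟩
  rw [mem_ball_zero_iff]
  refine (Complex.norm_le_abs_re_add_abs_im z).trans_lt ?_
  have h5 : |z.re| ≤ 1 := abs_le.2 ⟨h1, h2⟩
  have h6 : |z.im| ≤ 1 := abs_le.2 ⟨h3, h4⟩
  linarith

private lemma sq_compact : IsCompact {z : ℂ | -1 ≤ z.re ∧ z.re ≤ 1 ∧ -1 ≤ z.im ∧ z.im ≤ 1} := by
  refine Metric.isCompact_of_isClosed_isBounded ?_ (Metric.isBounded_ball.subset sq_sub)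
  have h : {z : ℂ | -1 ≤ z.re ∧ z.re ≤ 1 ∧ -1 ≤ z.im ∧ z.im ≤ 1} =
      {z : ℂ | -1 ≤ z.re} ∩ ({z | z.re ≤ 1} ∩ ({z | -1 ≤ z.im} ∩ {z | z.im ≤ 1})) := rfl
  rw [h]
  exact (isClosed_le continuous_const Complex.continuous_re).inter
    ((isClosed_le Complex.continuous_re continuous_const).inter
      ((isClosed_le continuous_const Complex.continuous_im).inter
        (isClosed_le Complex.continuous_im continuous_const)))

theorem sqh_sub_sq : sqh (-1) (-1) 2 ⊆ {z : ℂ | -1 ≤ z.re ∧ z.re ≤ 1 ∧ -1 ≤ z.im ∧ z.im ≤ 1} := by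
  rintro z ⟨h1, h2, h3, h4⟩
  exact ⟨h1, by linarith, h3, by linarith⟩

theorem sqh_sub_ball : sqh (-1) (-1) 2 ⊆ ball (0 : ℂ) 3 := sqh_sub_sq.trans sq_sub

theorem chart_est {S : Type*} [TopologicalSpace S] [MeasurableSpace S] [BorelSpace S] [CompactSpace S]
    (C : CSurf S) (i : Fin C.n) :
    ∃ K : ℝ, 0 ≤ K ∧ ∀ (m : ℕ), 1 ≤ m → ∀ v : S → ℝ, C.IsC1 v →
      ∑ p ∈ gidx m, ∫ x in (C.φ i).source ∩ C.φ i ⁻¹' gsq (-1) (-1) 2 m p,
        (v x - gavg (-1) (-1) 2 m (v ∘ (C.φ i).symm) p) ^ 2 ∂C.area ≤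
      K / (m : ℝ) ^ 2 * ∫ x, ‖C.grad v x‖ ^ 2 ∂C.area := by
  have hfin := Pool.Agent.Helper53.CL.H.area_finite C
  have hρc : ContinuousOn (C.ρ i) (ball 0 3) := (C.ρ_smooth i).continuousOn
  obtain ⟨K₀, hK₀⟩ := sq_compact.exists_bound_of_continuousOn (hρc.mono sq_sub)
  have hK₀0 : 0 ≤ K₀ := (norm_nonneg _).trans (hK₀ 0 (by simp))
  refine ⟨8 * K₀, by positivity, fun m hm v hv => ?_⟩
  have hm0 : (0 : ℝ) < m := by exact_mod_cast hm
  obtain ⟨w, hw⟩ : ∃ w, w = v ∘ (C.φ i).symm := ⟨_, rfl⟩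
  have hwc : ContDiffOn ℝ 1 w (ball 0 3) := by rw [hw]; exact hv i
  have hsubp : ∀ p ∈ gidx m, gsq (-1) (-1) 2 m p ⊆ sqh (-1) (-1) 2 := by
    intro p hp
    rw [grid_cover (α := -1) (β := -1) (L := 2) (by norm_num) hm]
    exact Set.subset_biUnion_of_mem (u := fun p => gsq (-1) (-1) 2 m p) hp
  have hmeasp : ∀ p, MeasurableSet (gsq (-1) (-1) 2 m p) := fun p => measurableSet_sqh _ _ _
  have hg := grid_est (α := -1) (β := -1) (L := 2) (by norm_num) hm isOpen_ball hwc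
    (fun z h1 h2 h3 h4 => sq_sub ⟨h1, by linarith, h3, by linarith⟩)
  rw [← hw]
  have step1 : ∑ p ∈ gidx m, ∫ x in (C.φ i).source ∩ C.φ i ⁻¹' gsq (-1) (-1) 2 m p,
        (v x - gavg (-1) (-1) 2 m w p) ^ 2 ∂C.area ≤
      K₀ * ∑ p ∈ gidx m, ∫ z in gsq (-1) (-1) 2 m p, (w z - gavg (-1) (-1) 2 m w p) ^ 2 := by
    rw [Finset.mul_sum]
    refine Finset.sum_le_sum fun p hp => ?_
    rw [integral_src_inter C i (hmeasp p) ((hsubp p hp).trans sqh_sub_ball), ← integral_const_mul]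
    have hsubQ := (hsubp p hp).trans sqh_sub_sq
    have c1 : ContinuousOn (fun z => (w z - gavg (-1) (-1) 2 m w p) ^ 2) (ball 0 3) :=
      (hwc.continuousOn.sub continuousOn_const).pow 2
    refine setIntegral_mono_on ?_ ?_ (hmeasp p) fun z hz => ?_
    · have c2 : ContinuousOn (fun z => C.ρ i z * (v ((C.φ i).symm z) -
          gavg (-1) (-1) 2 m w p) ^ 2) (ball 0 3) := by
        rw [hw] at c1
        rw [hw]
        exact hρc.mul c1
      exact ((c2.mono sq_sub).integrableOn_compact sq_compact).mono_set hsubQ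
    · exact (((continuousOn_const.mul c1).mono sq_sub).integrableOn_compact
        sq_compact).mono_set hsubQ
    · have h1 : C.ρ i z ≤ K₀ := (le_abs_self _).trans (hK₀ z (hsubQ hz))
      have h2 : v ((C.φ i).symm z) = w z := by rw [hw]; rfl
      rw [h2]
      exact mul_le_mul_of_nonneg_right h1 (sq_nonneg _)
  have step2 : ∫ z in sqh (-1) (-1) 2, ‖gr w z‖ ^ 2 ≤ ∫ x, ‖C.grad v x‖ ^ 2 ∂C.area := by
    have h1 := integral_src_inter C i (measurableSet_sqh (-1) (-1) 2) sqh_sub_ball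
      (fun x => ‖C.grad v x‖ ^ 2)
    have h2 : ∫ z in sqh (-1) (-1) 2, C.ρ i z * ‖C.grad v ((C.φ i).symm z)‖ ^ 2 =
        ∫ z in sqh (-1) (-1) 2, ‖gr w z‖ ^ 2 := by
      refine setIntegral_congr_fun (measurableSet_sqh _ _ _) fun z hz => ?_
      have hz3 := sqh_sub_ball hz
      have hzt : z ∈ (C.φ i).target := by rw [C.target]; exact hz3
      have h3 := Pool.Agent.Helper53.CL.H.norm_grad C hv ((C.φ i).map_target hzt)
      rw [(C.φ i).right_inv hzt, ← hw] at h3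
      rw [h3, mul_div_cancel₀ _ (C.ρ_pos i z hz3).ne']
    rw [← h2, ← h1]
    obtain ⟨K', hK'⟩ := Pool.Agent.Helper53.CL.H.bounded_grad C hv
    have hint : Integrable (fun x => ‖C.grad v x‖ ^ 2) C.area := by
      refine Integrable.of_bound
        ((Pool.Agent.Helper53.CL.H.measurable_grad C hv).norm.pow_const 2).aestronglyMeasurable
        (K' ^ 2) (Filter.Eventually.of_forall fun x => ?_)
      rw [Real.norm_of_nonneg (sq_nonneg _)]
      exact pow_le_pow_left₀ (norm_nonneg _) (hK' x) 2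
    exact setIntegral_le_integral hint (Filter.Eventually.of_forall fun x => sq_nonneg _)
  calc _ ≤ K₀ * ∑ p ∈ gidx m, ∫ z in gsq (-1) (-1) 2 m p, (w z - gavg (-1) (-1) 2 m w p) ^ 2 :=
        step1
    _ ≤ K₀ * (2 * (2 / m) ^ 2 * ∫ z in sqh (-1) (-1) 2, ‖gr w z‖ ^ 2) :=
        mul_le_mul_of_nonneg_left hg hK₀0
    _ ≤ K₀ * (2 * (2 / m) ^ 2 * ∫ x, ‖C.grad v x‖ ^ 2 ∂C.area) :=
        mul_le_mul_of_nonneg_left (mul_le_mul_of_nonneg_left step2 (by positivity)) hK₀0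
    _ = 8 * K₀ / (m : ℝ) ^ 2 * ∫ x, ‖C.grad v x‖ ^ 2 ∂C.area := by
        field_simp
        ring

end SOB
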