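import Pool.Agent.Helper57.SOB.Abs
import Pool.Agent.Helper53.CL.H.H02

/-!
# SOB-12 The class of pairs of a surface, the open sets of the charts

TO PROVE (in place).

* `jclassS`: continuity and boundedness of `v` (`H.continuous_of_isC1`, compactness), `H.measurable_grad`, `H.bounded_grad`,
  `H.area_finite`; `C.grad` is additive, homogeneous and satisfies the chain rule, because in each chart the functions are
  differentiable at the points of the ball and `C.idx x` does not depend on the function.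
* `exists_open`: let `D j = (φ j).source ∩ φ j ⁻¹' ball 0 1` (open).  Since `S` is a Hausdorff space, the compact set
  `(φ j).symm '' closedBall 0 1` is closed and contains the closure of `D j`.  Put `O i = D i \ ⋃ j < i, closure (D j)`.
  On `O i`, `C.idx x = i` (the least index with `x ∈ D j`).  If `x` is in no `O i` and `i = C.idx x`, then `x ∈ D i`, `x ∉ D j` for `j < i`,
  so `x ∈ closure (D j) \ D j` for some `j < i`, hence `x ∈ (φ j).source`, `‖φ j x‖ = 1`.  These sets are null sets: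
  `area_eq` and the circle is a null set (`Measure.addHaar_sphere`).
-/

set_option autoImplicit false

namespace SOB

open MeasureTheory Filter Topology Metric
open Pool.Agent.Helper53.CL

variable {S : Type*} [TopologicalSpace S] [MeasurableSpace S] [BorelSpace S]

private lemma gr_eq_of {f : ℂ → ℝ} {z : ℂ} {L : ℂ →L[ℝ] ℝ} (h : HasFDerivAt f L z) :
    gr f z = ⟨L 1, L Complex.I⟩ := by
  unfold gr dx dy
  rw [h.fderiv]

private lemma gr_add_at {f g : ℂ → ℝ} {z : ℂ} (hf : DifferentiableAt ℝ f z)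
    (hg : DifferentiableAt ℝ g z) : gr (f + g) z = gr f z + gr g z := by
  rw [gr_eq_of (hf.hasFDerivAt.add hg.hasFDerivAt)]
  apply Complex.ext
  · simp [gr, dx]
  · simp [gr, dy]

private lemma gr_smul_at {f : ℂ → ℝ} {z : ℂ} (c : ℝ) (hf : DifferentiableAt ℝ f z) :
    gr (c • f) z = c • gr f z := by
  rw [gr_eq_of (hf.hasFDerivAt.const_smul c)]
  apply Complex.ext
  · simp [gr, dx]
  · simp [gr, dy]

private lemma gr_comp_at {f : ℂ → ℝ} {k : ℝ → ℝ} {z : ℂ} (hk : DifferentiableAt ℝ k (f z))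
    (hf : DifferentiableAt ℝ f z) :
    gr (fun x => k (f x)) z = ((deriv k (f z) : ℝ) : ℂ) * gr f z := by
  have h : HasFDerivAt (fun x => k (f x)) (deriv k (f z) • fderiv ℝ f z) z :=
    hk.hasDerivAt.comp_hasFDerivAt z hf.hasFDerivAt
  rw [gr_eq_of h]
  apply Complex.ext
  · simp [gr, dx]
  · simp [gr, dy]

omit [BorelSpace S] in
private lemma h45_idx_spec (C : CSurf S) (x : S) :
    x ∈ (C.φ (C.idx x)).source ∧ C.φ (C.idx x) x ∈ ball (0 : ℂ) 1 := by
  classical
  have h := Finset.min'_mem (Finset.univ.filter fun i =>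
    x ∈ (C.φ i).source ∧ C.φ i x ∈ ball (0 : ℂ) 1)
    (let ⟨i, hi⟩ := C.cover x; ⟨i, Finset.mem_filter.2 ⟨Finset.mem_univ i, hi⟩⟩)
  have h2 := (Finset.mem_filter.1 h).2
  convert h2 using 2 <;> unfold CSurf.idx <;> congr!

omit [BorelSpace S] in
private lemma h45_idx_le (C : CSurf S) (x : S) {i : Fin C.n}
    (h : x ∈ (C.φ i).source ∧ C.φ i x ∈ ball (0 : ℂ) 1) : C.idx x ≤ i := by
  classical
  unfold CSurf.idx
  exact Finset.min'_le _ i (Finset.mem_filter.2 ⟨Finset.mem_univ i, h⟩)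

omit [BorelSpace S] in
private lemma h45_diff (C : CSurf S) {v : S → ℝ} (hv : C.IsC1 v) (x : S) :
    DifferentiableAt ℝ (v ∘ (C.φ (C.idx x)).symm) (C.φ (C.idx x) x) := by
  have h3 : C.φ (C.idx x) x ∈ ball (0 : ℂ) 3 :=
    ball_subset_ball (by norm_num) (h45_idx_spec C x).2
  exact ((hv (C.idx x)).contDiffAt (isOpen_ball.mem_nhds h3)).differentiableAt one_ne_zero

theorem jclassS [CompactSpace S] (C : CSurf S) : JClass C.area (JS C) := by
  have hfin := Pool.Agent.Helper53.CL.H.area_finite C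
  refine ⟨?_, ?_, ?_, ?_, ?_⟩
  · rintro v g ⟨hv, rfl⟩
    have hc := Pool.Agent.Helper53.CL.H.continuous_of_isC1 C hv
    obtain ⟨K, hK⟩ := isCompact_univ.exists_bound_of_continuousOn hc.continuousOn
    obtain ⟨K', hK'⟩ := Pool.Agent.Helper53.CL.H.bounded_grad C hv
    exact ⟨MemLp.of_bound hc.aestronglyMeasurable K
        (Filter.Eventually.of_forall fun x => hK x (Set.mem_univ x)),
      MemLp.of_bound (Pool.Agent.Helper53.CL.H.measurable_grad C hv).aestronglyMeasurable K'
        (Filter.Eventually.of_forall hK')⟩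
  · refine ⟨fun i => contDiffOn_const, ?_⟩
    funext x
    unfold CSurf.grad
    have h1 : gr ((fun _ => (1 : ℝ)) ∘ (C.φ (C.idx x)).symm) (C.φ (C.idx x) x) = 0 := by
      have h2 : HasFDerivAt ((fun _ => (1 : ℝ)) ∘ (C.φ (C.idx x)).symm) (0 : ℂ →L[ℝ] ℝ)
          (C.φ (C.idx x) x) := hasFDerivAt_const (1 : ℝ) _
      rw [gr_eq_of h2]
      apply Complex.ext <;> simp
    rw [h1, zero_div]
  · rintro v g v' g' ⟨hv, rfl⟩ ⟨hv', rfl⟩
    refine ⟨fun i => (hv i).add (hv' i), ?_⟩
    funext x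
    have h1 : gr ((v + v') ∘ (C.φ (C.idx x)).symm) (C.φ (C.idx x) x) =
        gr (v ∘ (C.φ (C.idx x)).symm) (C.φ (C.idx x) x) +
          gr (v' ∘ (C.φ (C.idx x)).symm) (C.φ (C.idx x) x) :=
      gr_add_at (h45_diff C hv x) (h45_diff C hv' x)
    rw [Pi.add_apply]
    unfold CSurf.grad
    rw [h1, add_div]
  · rintro c v g ⟨hv, rfl⟩
    refine ⟨fun i => (hv i).const_smul c, ?_⟩
    funext x
    have h1 : gr ((c • v) ∘ (C.φ (C.idx x)).symm) (C.φ (C.idx x) x) =
        c • gr (v ∘ (C.φ (C.idx x)).symm) (C.φ (C.idx x) x) :=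
      gr_smul_at c (h45_diff C hv x)
    rw [Pi.smul_apply]
    unfold CSurf.grad
    rw [h1, Complex.real_smul, Complex.real_smul, mul_div_assoc]
  · rintro k hk v g ⟨hv, rfl⟩
    refine ⟨fun i => hk.comp_contDiffOn (hv i), ?_⟩
    funext x
    have h1 : gr ((fun x => k (v x)) ∘ (C.φ (C.idx x)).symm) (C.φ (C.idx x) x) =
        ((deriv k ((v ∘ (C.φ (C.idx x)).symm) (C.φ (C.idx x) x)) : ℝ) : ℂ) *
          gr (v ∘ (C.φ (C.idx x)).symm) (C.φ (C.idx x) x) :=
      gr_comp_at (hk.differentiable one_ne_zero _) (h45_diff C hv x)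
    have h2 : (v ∘ (C.φ (C.idx x)).symm) (C.φ (C.idx x) x) = v x := by
      rw [Function.comp_apply, (C.φ (C.idx x)).left_inv (h45_idx_spec C x).1]
    rw [h2] at h1
    unfold CSurf.grad
    rw [h1, mul_div_assoc]

theorem exists_open [T2Space S] (C : CSurf S) :
    ∃ O : Fin C.n → Set S, (∀ i, IsOpen (O i)) ∧ (∀ i, O i ⊆ (C.φ i).source) ∧
      (∀ i, ∀ x ∈ O i, C.idx x = i ∧ C.φ i x ∈ ball (0 : ℂ) 1) ∧ C.area (⋃ i, O i)ᶜ = 0 := by
  obtain ⟨D, hD⟩ : ∃ D : Fin C.n → Set S, ∀ j, D j = (C.φ j).source ∩ C.φ j ⁻¹' ball (0 : ℂ) 1 :=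
    ⟨_, fun _ => rfl⟩
  have hDo : ∀ j, IsOpen (D j) := fun j => by
    rw [hD]
    exact (C.φ j).isOpen_inter_preimage isOpen_ball
  have hcl : ∀ j, closure (D j) ⊆ (C.φ j).symm '' closedBall (0 : ℂ) 1 := by
    intro j
    have hsub : closedBall (0 : ℂ) 1 ⊆ (C.φ j).target := by
      rw [C.target]
      exact closedBall_subset_ball (by norm_num)
    have hcomp : IsCompact ((C.φ j).symm '' closedBall (0 : ℂ) 1) :=
      (isCompact_closedBall _ _).image_of_continuousOn ((C.φ j).continuousOn_symm.mono hsub)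
    refine closure_minimal ?_ hcomp.isClosed
    intro x hx
    rw [hD] at hx
    exact ⟨C.φ j x, ball_subset_closedBall hx.2, (C.φ j).left_inv hx.1⟩
  refine ⟨fun i => D i \ ⋃ j, ⋃ (_ : j < i), closure (D j), ?_, ?_, ?_, ?_⟩
  · intro i
    refine (hDo i).sdiff ?_
    exact isClosed_iUnion_of_finite fun j => isClosed_iUnion_of_finite fun _ => isClosed_closure
  · intro i x hx
    have := hx.1
    rw [hD] at this
    exact this.1
  · intro i x hx
    have h1 := hx.1
    rw [hD] at h1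
    refine ⟨le_antisymm (h45_idx_le C x h1) ?_, h1.2⟩
    by_contra hcon
    push Not at hcon
    apply hx.2
    have h2 := h45_idx_spec C x
    refine Set.mem_iUnion.2 ⟨C.idx x, Set.mem_iUnion.2 ⟨hcon, subset_closure ?_⟩⟩
    rw [hD]
    exact h2
  · have hsub : (⋃ i, (D i \ ⋃ j, ⋃ (_ : j < i), closure (D j)))ᶜ ⊆
        ⋃ j, ((C.φ j).source ∩ C.φ j ⁻¹' sphere (0 : ℂ) 1) := by
      intro x hx
      have h1 := h45_idx_spec C x
      have h2 : x ∈ D (C.idx x) := by
        rw [hD]
        exact h1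
      have h3 : x ∈ ⋃ j, ⋃ (_ : j < C.idx x), closure (D j) := by
        by_contra hcon
        exact hx (Set.mem_iUnion.2 ⟨C.idx x, h2, hcon⟩)
      obtain ⟨j, h4⟩ := Set.mem_iUnion.1 h3
      obtain ⟨hj, h5⟩ := Set.mem_iUnion.1 h4
      obtain ⟨z, hz, hzx⟩ := hcl j h5
      have hzt : z ∈ (C.φ j).target := by
        rw [C.target]
        exact closedBall_subset_ball (by norm_num) hz
      have hxs : x ∈ (C.φ j).source := by
        rw [← hzx]
        exact (C.φ j).map_target hzt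
      have hφx : C.φ j x = z := by
        rw [← hzx, (C.φ j).right_inv hzt]
      refine Set.mem_iUnion.2 ⟨j, hxs, ?_⟩
      rw [Set.mem_preimage, hφx, mem_sphere]
      rw [mem_closedBall] at hz
      refine le_antisymm hz ?_
      by_contra hcon
      push Not at hcon
      have h6 : C.idx x ≤ j := h45_idx_le C x ⟨hxs, by rw [hφx, mem_ball]; exact hcon⟩
      exact absurd hj (not_lt.2 h6)
    refine measure_mono_null hsub ?_
    rw [measure_iUnion_null_iff]
    intro j
    have hmeas : MeasurableSet ((C.φ j).source ∩ C.φ j ⁻¹' sphere (0 : ℂ) 1) := by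
      have h1 : (C.φ j).source ∩ C.φ j ⁻¹' sphere (0 : ℂ) 1 =
          (C.φ j).source \ ((C.φ j).source ∩ C.φ j ⁻¹' (sphere (0 : ℂ) 1)ᶜ) := by
        ext x
        simp only [Set.mem_inter_iff, Set.mem_preimage, Set.mem_sdiff, Set.mem_compl_iff]
        tauto
      rw [h1]
      exact (C.φ j).open_source.measurableSet.diff
        ((C.φ j).isOpen_inter_preimage isClosed_sphere.isOpen_compl).measurableSet
    rw [C.area_eq j _ hmeas Set.inter_subset_left]
    refine setLIntegral_measure_zero _ _ ?_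
    refine measure_mono_null ?_ (Measure.addHaar_sphere volume (0 : ℂ) 1)
    rintro _ ⟨x, hx, rfl⟩
    exact hx.2

end SOB
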